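import Mathlib

/-!
# Decompositions of trees into unit bar visibility trees
-/

set_option autoImplicit false

namespace Q227.UB

/-- A unit bar visibility tree, in the description of Dean and Veytsel: a tree of maximum degree at
most three which is a subdivision of a caterpillar, that is, whose vertices of degree three lie on
one path. -/
def IsUBVT {V : Type*} (G : SimpleGraph V) : Prop :=
  G.IsTree ∧ (∀ v, (G.neighborSet v).ncard ≤ 3) ∧
    ∃ (u v : V) (p : G.Walk u v), p.IsPath ∧ ∀ x, (G.neighborSet x).ncard = 3 → x ∈ p.support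

/-- `T` has a decomposition into `ℓ` unit bar visibility trees with at least one edge, such that
every vertex lies in at most `k` of them: subgraphs `P i` whose edge sets partition the edge set of
`T`. -/
def Decomposes {V : Type*} (T : SimpleGraph V) (k ℓ : ℕ) : Prop :=
  ∃ P : Fin ℓ → T.Subgraph,
    (∀ i, (P i).edgeSet.Nonempty ∧ IsUBVT (P i).coe) ∧
    (∀ e ∈ T.edgeSet, ∃! i, e ∈ (P i).edgeSet) ∧
    ∀ v, {i | v ∈ (P i).verts}.ncard ≤ k

/-- The graph given by a list of vertices and a list of edges. -/
def graphOf (I : List ℕ × List (ℕ × ℕ)) : SimpleGraph {v // v ∈ I.1} where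
  Adj u v := u ≠ v ∧ ((u.1, v.1) ∈ I.2 ∨ (v.1, u.1) ∈ I.2)
  symm.symm u v h := ⟨h.1.symm, h.2.symm⟩
  loopless.irrefl u h := h.1 rfl

end Q227.UB
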