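import Pool.Agent.Q227.UB.Clo
import Pool.Agent.Q227.UB.Defs

/-!
# The algorithm
-/

set_option autoImplicit false

namespace Q227.UB

open Pool.Agent.NPC

/-- Inputs: lists of vertices and edges. -/
abbrev Inp : Type := List ℕ × List (ℕ × ℕ)

/-- Facts `(v, u, i, a, b, c, q)`. -/
abbrev Fact : Type := ℕ × ℕ × ℕ × ℕ × ℕ × ℕ × ℕ

instance factDec : DecidableEq Fact := @instDecidableEqProd ℕ (ℕ × ℕ × ℕ × ℕ × ℕ × ℕ) _ _

/-- The adjacency test. -/
def adjB (I : Inp) (x y : ℕ) : Bool :=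
  !decide (x = y) && I.2.any fun p => decide (p = (x, y)) || decide (p = (y, x))

/-- The neighbours of `v` other than `u`. -/
def childB (I : Inp) (v u w : ℕ) : Bool := adjB I v w && !decide (w = u)

/-- The range of the numbers. -/
def rgN (I : Inp) : List ℕ := List.range (I.1.length + 1)

/-- The universe. -/
def facts (I : Inp) : List Fact :=
  lprod I.1 (lprod I.1 (lprod (rgN I) (lprod (rgN I) (lprod (rgN I) (lprod (rgN I) (rgN I))))))

/-- The base facts. -/
def baseB (f : Fact) : Bool := decide (f.2.2 = (0, 0, 0, 0, 0))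

/-- The local condition. -/
def locB (k a b c : ℕ) : Bool := decide (b ≤ c + a / 2) && decide (c + (a + 1) / 2 ≤ k)

/-- The vertex with the index `i`. -/
def nth (I : Inp) (i : ℕ) : ℕ := I.1.getD i 0

/-- The vertex with index `i` is not a child. -/
def skipB (I : Inp) (f g : Fact) : Bool :=
  decide (f.1 = g.1) && (decide (f.2.1 = g.2.1) && (decide (f.2.2.1 = g.2.2.1 + 1) &&
    (decide (f.2.2.2 = g.2.2.2) && !childB I f.1 f.2.1 (nth I g.2.2.1))))

/-- The vertex with index `i` is a child, and the edge to it has the label given by `e`. -/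
def takeB (I : Inp) (k : ℕ) (e : ℕ × ℕ × ℕ) (f g h : Fact) : Bool :=
  decide (f.1 = g.1) && (decide (f.2.1 = g.2.1) && (decide (f.2.2.1 = g.2.2.1 + 1) &&
    (childB I f.1 f.2.1 (nth I g.2.2.1) && (decide (h.1 = nth I g.2.2.1) &&
    (decide (h.2.1 = f.1) && (decide (h.2.2.1 = I.1.length) &&
    (locB k (h.2.2.2.1 + e.1) (h.2.2.2.2.1 + e.2.2) (h.2.2.2.2.2.1 + e.2.1) &&
    decide (f.2.2.2 = (g.2.2.2.1 + e.1, g.2.2.2.2.1 + e.2.1, g.2.2.2.2.2.1 + e.2.2,
      g.2.2.2.2.2.2 + h.2.2.2.2.2.2 + (h.2.2.2.1 + e.1) % 2)))))))))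

/-- The rules. -/
def ruleB (I : Inp) (k : ℕ) (f g h : Fact) : Bool :=
  skipB I f g || (takeB I k (1, 0, 0) f g h || (takeB I k (0, 1, 0) f g h ||
    takeB I k (0, 0, 1) f g h))

/-- The test for `Good`. -/
def goodB (I : Inp) (k t : ℕ) : Bool :=
  (clo (facts I) baseB (ruleB I k)).any fun f =>
    decide (f.1 = nth I 0) && (decide (f.2.1 = nth I 0) && (decide (f.2.2.1 = I.1.length) &&
      (locB k f.2.2.2.1 f.2.2.2.2.1 f.2.2.2.2.2.1 &&
        decide (f.2.2.2.2.2.2 + f.2.2.2.1 % 2 = t))))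

/-- The least load. -/
def ubB (I : Inp) : ℕ :=
  ((rgN I).filter fun k => decide (1 ≤ k) && (rgN I).any fun t => goodB I k t).getD 0 0

/-- The output: the least load and the least size. -/
def solve (I : Inp) : ℕ × ℕ :=
  (ubB I, ((rgN I).filter fun t => goodB I (ubB I) t).getD 0 0 / 2)

/-! ### Running time -/

section

variable {α : Type} [TEnc α] {I : α → Inp}

theorem poly_adjB {x y : α → ℕ} (hI : Poly I) (hx : Poly x) (hy : Poly y) :
    Poly (fun a => adjB (I a) (x a) (y a)) := by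
  refine Poly.and (Poly.not (Poly.decide_eq hx hy)) ?_
  refine Poly.any (p := fun a p => decide (p = (x a, y a)) || decide (p = (y a, x a)))
    (Poly.snd hI) ?_
  have h1 := hx.comp (Poly.fst (β := α) (γ := ℕ × ℕ) Poly.id)
  have h2 := hy.comp (Poly.fst (β := α) (γ := ℕ × ℕ) Poly.id)
  exact Poly.or (Poly.decide_eq (Poly.snd Poly.id) (Poly.pair h1 h2))
    (Poly.decide_eq (Poly.snd Poly.id) (Poly.pair h2 h1))

theorem poly_childB {v u w : α → ℕ} (hI : Poly I) (hv : Poly v) (hu : Poly u) (hw : Poly w) :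
    Poly (fun a => childB (I a) (v a) (u a) (w a)) :=
  Poly.and (poly_adjB hI hv hw) (Poly.not (Poly.decide_eq hw hu))

theorem poly_rgN (hI : Poly I) : Poly (fun a => rgN (I a)) :=
  UPoly.range (UPoly.add (UPoly.length (Poly.fst hI)) (UPoly.const 1))

theorem poly_facts (hI : Poly I) : Poly (fun a => facts (I a)) :=
  poly_lprod (Poly.fst hI) (poly_lprod (Poly.fst hI) (poly_lprod (poly_rgN hI)
    (poly_lprod (poly_rgN hI) (poly_lprod (poly_rgN hI) (poly_lprod (poly_rgN hI)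
      (poly_rgN hI))))))

theorem poly_nth {i : α → ℕ} (hI : Poly I) (hi : Poly i) : Poly (fun a => nth (I a) (i a)) :=
  Poly.getD (Poly.fst hI) hi (Pool.Agent.NPC.Poly.const 0)

theorem poly_locB {k a b c : α → ℕ} (hk : Poly k) (ha : Poly a) (hb : Poly b) (hc : Poly c) :
    Poly (fun x => locB (k x) (a x) (b x) (c x)) :=
  Poly.and (Poly.decide_le hb (Pool.Agent.NPC.Poly.add hc (Poly.div ha
    (Pool.Agent.NPC.Poly.const 2)))) (Poly.decide_le (Pool.Agent.NPC.Poly.add hc
      (Poly.div (Poly.succ ha) (Pool.Agent.NPC.Poly.const 2))) hk)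

theorem poly_skipB {f g : α → Fact} (hI : Poly I) (hf : Poly f) (hg : Poly g) :
    Poly (fun a => skipB (I a) (f a) (g a)) := by
  have f1 := Poly.fst hf
  have f2 := Poly.fst (Poly.snd hf)
  have f3 := Poly.fst (Poly.snd (Poly.snd hf))
  have f4 := Poly.snd (Poly.snd (Poly.snd hf))
  have g1 := Poly.fst hg
  have g2 := Poly.fst (Poly.snd hg)
  have g3 := Poly.fst (Poly.snd (Poly.snd hg))
  have g4 := Poly.snd (Poly.snd (Poly.snd hg))
  exact Poly.and (Poly.decide_eq f1 g1) (Poly.and (Poly.decide_eq f2 g2)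
    (Poly.and (Poly.decide_eq f3 (Poly.succ g3)) (Poly.and (Poly.decide_eq f4 g4)
      (Poly.not (poly_childB hI f1 f2 (poly_nth hI g3))))))

theorem poly_takeB {k : α → ℕ} {f g h : α → Fact} (e : ℕ × ℕ × ℕ) (hI : Poly I) (hk : Poly k)
    (hf : Poly f) (hg : Poly g) (hh : Poly h) :
    Poly (fun a => takeB (I a) (k a) e (f a) (g a) (h a)) := by
  have f1 := Poly.fst hf
  have f2 := Poly.fst (Poly.snd hf)
  have f3 := Poly.fst (Poly.snd (Poly.snd hf))
  have f4 := Poly.snd (Poly.snd (Poly.snd hf))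
  have g1 := Poly.fst hg
  have g2 := Poly.fst (Poly.snd hg)
  have g3 := Poly.fst (Poly.snd (Poly.snd hg))
  have g4 := Poly.snd (Poly.snd (Poly.snd hg))
  have h1 := Poly.fst hh
  have h2 := Poly.fst (Poly.snd hh)
  have h3 := Poly.fst (Poly.snd (Poly.snd hh))
  have h4 := Poly.snd (Poly.snd (Poly.snd hh))
  have ce : ∀ m : ℕ, Poly (fun _ : α => m) := fun m => Pool.Agent.NPC.Poly.const m
  have hn : Poly (fun a => (I a).1.length) := Poly.length (Poly.fst hI)
  have ga := Pool.Agent.NPC.Poly.add (Poly.fst g4) (ce e.1)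
  have gb := Pool.Agent.NPC.Poly.add (Poly.fst (Poly.snd g4)) (ce e.2.1)
  have gc := Pool.Agent.NPC.Poly.add (Poly.fst (Poly.snd (Poly.snd g4))) (ce e.2.2)
  have ha := Pool.Agent.NPC.Poly.add (Poly.fst h4) (ce e.1)
  have hb := Pool.Agent.NPC.Poly.add (Poly.fst (Poly.snd h4)) (ce e.2.2)
  have hc := Pool.Agent.NPC.Poly.add (Poly.fst (Poly.snd (Poly.snd h4))) (ce e.2.1)
  have hq := Pool.Agent.NPC.Poly.add (Pool.Agent.NPC.Poly.add
    (Poly.snd (Poly.snd (Poly.snd g4))) (Poly.snd (Poly.snd (Poly.snd h4))))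
    (Poly.mod ha (ce 2))
  exact Poly.and (Poly.decide_eq f1 g1) (Poly.and (Poly.decide_eq f2 g2)
    (Poly.and (Poly.decide_eq f3 (Poly.succ g3)) (Poly.and
      (poly_childB hI f1 f2 (poly_nth hI g3)) (Poly.and (Poly.decide_eq h1 (poly_nth hI g3))
      (Poly.and (Poly.decide_eq h2 f1) (Poly.and (Poly.decide_eq h3 hn)
      (Poly.and (poly_locB hk ha hb hc) (Poly.decide_eq f4
        (Poly.pair ga (Poly.pair gb (Poly.pair gc hq)))))))))))

theorem poly_goodB {k t : α → ℕ} (hI : Poly I) (hk : Poly k) (ht : Poly t) :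
    Poly (fun a => goodB (I a) (k a) (t a)) := by
  refine Poly.any (p := fun a f => decide (f.1 = nth (I a) 0) && (decide (f.2.1 = nth (I a) 0) &&
    (decide (f.2.2.1 = (I a).1.length) &&
      (locB (k a) f.2.2.2.1 f.2.2.2.2.1 f.2.2.2.2.2.1 &&
        decide (f.2.2.2.2.2.2 + f.2.2.2.1 % 2 = t a))))) (poly_clo (poly_facts hI) ?_ ?_) ?_
  · exact Poly.decide_eq (Poly.snd (Poly.snd (Poly.snd Poly.id)))
      (Pool.Agent.NPC.Poly.const _)
  · have p0 : Poly (fun p : α × Fact × Fact × Fact => p.1) := Poly.fst Poly.id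
    have p1 : Poly (fun p : α × Fact × Fact × Fact => p.2.1) := Poly.fst (Poly.snd Poly.id)
    have p2 : Poly (fun p : α × Fact × Fact × Fact => p.2.2.1) :=
      Poly.fst (Poly.snd (Poly.snd Poly.id))
    have p3 : Poly (fun p : α × Fact × Fact × Fact => p.2.2.2) :=
      Poly.snd (Poly.snd (Poly.snd Poly.id))
    exact Poly.or (poly_skipB (hI.comp p0) p1 p2) (Poly.or
      (poly_takeB _ (hI.comp p0) (hk.comp p0) p1 p2 p3) (Poly.or
      (poly_takeB _ (hI.comp p0) (hk.comp p0) p1 p2 p3)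
      (poly_takeB _ (hI.comp p0) (hk.comp p0) p1 p2 p3)))
  · have p0 : Poly (fun p : α × Fact => p.1) := Poly.fst Poly.id
    have f : Poly (fun p : α × Fact => p.2) := Poly.snd Poly.id
    have f4 := Poly.snd (Poly.snd (Poly.snd f))
    have hz : Poly (fun p : α × Fact => nth (I p.1) 0) :=
      poly_nth (hI.comp p0) (Pool.Agent.NPC.Poly.const 0)
    exact Poly.and (Poly.decide_eq (Poly.fst f) hz) (Poly.and
      (Poly.decide_eq (Poly.fst (Poly.snd f)) hz) (Poly.and
      (Poly.decide_eq (Poly.fst (Poly.snd (Poly.snd f)))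
        (Poly.length (Poly.fst (hI.comp p0)))) (Poly.and
      (poly_locB (hk.comp p0) (Poly.fst f4) (Poly.fst (Poly.snd f4))
        (Poly.fst (Poly.snd (Poly.snd f4))))
      (Poly.decide_eq (Pool.Agent.NPC.Poly.add (Poly.snd (Poly.snd (Poly.snd f4)))
        (Poly.mod (Poly.fst f4) (Pool.Agent.NPC.Poly.const 2))) (ht.comp p0)))))

theorem poly_ubB (hI : Poly I) : Poly (fun a => ubB (I a)) := by
  refine Poly.getD ?_ (Pool.Agent.NPC.Poly.const 0) (Pool.Agent.NPC.Poly.const 0)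
  refine Poly.filter (p := fun a k => decide (1 ≤ k) && (rgN (I a)).any fun t => goodB (I a) k t)
    (poly_rgN hI) ?_
  refine Poly.and (Poly.decide_le (Pool.Agent.NPC.Poly.const 1) (Poly.snd Poly.id)) ?_
  refine Poly.any (p := fun (p : α × ℕ) t => goodB (I p.1) p.2 t)
    (poly_rgN (hI.comp (Poly.fst Poly.id))) ?_
  exact poly_goodB (hI.comp (Poly.fst (Poly.fst Poly.id))) (Poly.snd (Poly.fst Poly.id))
    (Poly.snd Poly.id)

theorem poly_solve (hI : Poly I) : Poly (fun a => solve (I a)) := by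
  refine Poly.pair (poly_ubB hI) (Poly.div (Poly.getD ?_ (Pool.Agent.NPC.Poly.const 0)
    (Pool.Agent.NPC.Poly.const 0)) (Pool.Agent.NPC.Poly.const 2))
  refine Poly.filter (p := fun a t => goodB (I a) (ubB (I a)) t) (poly_rgN hI) ?_
  exact poly_goodB (hI.comp (Poly.fst Poly.id)) (poly_ubB (hI.comp (Poly.fst Poly.id)))
    (Poly.snd Poly.id)

end

end Q227.UB
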