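import Pool.Agent.H612.CollectPoly
import Pool.Agent.NPC.Dec

/-!
# Closures under rules with two premises, in polynomial time
-/

set_option autoImplicit false

namespace Q227.UB

open Pool.Agent.NPC

section

variable {β : Type} [DecidableEq β]

/-- One step of the closure. -/
def cstep (U : List β) (base : β → Bool) (R : β → β → β → Bool) (s : List β) : List β :=
  U.filter fun f => decide (f ∈ s) || (base f || s.any fun g => s.any fun h => R f g h)

/-- The closure. -/
def clo (U : List β) (base : β → Bool) (R : β → β → β → Bool) : List β :=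
  (cstep U base R)^[U.length] []

/-- Derivability in the universe `U`. -/
inductive Der (U : List β) (base : β → Bool) (R : β → β → β → Bool) : β → Prop
  | base (f : β) : f ∈ U → base f = true → Der U base R f
  | rule (f g h : β) : f ∈ U → Der U base R g → Der U base R h → R f g h = true → Der U base R f

theorem iter_fix (U : Finset β) (F : Finset β → Finset β) (n : ℕ) (hn : U.card ≤ n)
    (h1 : ∀ s ⊆ U, s ⊆ F s) (h2 : ∀ s, F s ⊆ U) {s : Finset β} (hs : s ⊆ U) :
    F (F^[n] s) = F^[n] s := by
  have hsub : ∀ k, F^[k] s ⊆ U := by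
    intro k
    cases k with
    | zero => exact hs
    | succ k => rw [Function.iterate_succ_apply']; exact h2 _
  by_contra hne
  have hk : ∀ k ≤ n, F (F^[k] s) ≠ F^[k] s := by
    intro k hk heq
    apply hne
    have : ∀ j, F^[k + j] s = F^[k] s := by
      intro j
      induction j with
      | zero => rfl
      | succ j ih => rw [← Nat.add_assoc, Function.iterate_succ_apply', ih, heq]
    have h3 := this (n - k)
    rw [show k + (n - k) = n by omega] at h3
    rw [h3, heq]
  have hcard : ∀ k ≤ n + 1, k ≤ (F^[k] s).card := by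
    intro k
    induction k with
    | zero => intro _; exact Nat.zero_le _
    | succ k ih =>
      intro hk1
      have h3 := ih (by omega)
      have h4 : F^[k] s ⊂ F (F^[k] s) :=
        ((h1 _ (hsub k)).ssubset_of_ne (hk k (by omega)).symm)
      have h5 := Finset.card_lt_card h4
      rw [Function.iterate_succ_apply']
      omega
  have h6 := hcard (n + 1) le_rfl
  have h7 := Finset.card_le_card (hsub (n + 1))
  omega

variable {U : List β} {base : β → Bool} {R : β → β → β → Bool}

theorem mem_cstep {s : List β} {f : β} : f ∈ cstep U base R s ↔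
    f ∈ U ∧ (f ∈ s ∨ base f = true ∨ ∃ g ∈ s, ∃ h ∈ s, R f g h = true) := by
  unfold cstep
  simp only [List.mem_filter, Bool.or_eq_true, decide_eq_true_eq, List.any_eq_true]

/-- The step for finite sets. -/
def cstepF (U : List β) (base : β → Bool) (R : β → β → β → Bool) (s : Finset β) : Finset β :=
  U.toFinset.filter fun f => f ∈ s ∨ base f = true ∨ ∃ g ∈ s, ∃ h ∈ s, R f g h = true

theorem cstep_toFinset (s : List β) :
    (cstep U base R s).toFinset = cstepF U base R s.toFinset := by
  ext f
  rw [List.mem_toFinset, mem_cstep]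
  simp only [cstepF, Finset.mem_filter, List.mem_toFinset]

theorem iterate_toFinset (s : List β) (k : ℕ) :
    ((cstep U base R)^[k] s).toFinset = (cstepF U base R)^[k] s.toFinset := by
  induction k with
  | zero => rfl
  | succ k ih =>
    rw [Function.iterate_succ_apply', Function.iterate_succ_apply', cstep_toFinset, ih]

theorem clo_fix {f : β} (h : f ∈ cstep U base R (clo U base R)) : f ∈ clo U base R := by
  have h1 := iter_fix U.toFinset (cstepF U base R) U.length (List.toFinset_card_le U)
    (s := ([] : List β).toFinset) ?_ ?_ ?_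
  · rw [← iterate_toFinset, ← cstep_toFinset] at h1
    rw [← List.mem_toFinset] at h ⊢
    unfold clo at h ⊢
    rw [← h1]
    exact h
  · intro s hs v hv
    simp only [cstepF, Finset.mem_filter]
    exact ⟨hs hv, Or.inl hv⟩
  · intro s v hv
    exact (Finset.mem_filter.1 hv).1
  · intro v hv
    rw [List.mem_toFinset] at hv
    exact absurd hv List.not_mem_nil

theorem mem_clo {f : β} : f ∈ clo U base R ↔ Der U base R f := by
  constructor
  · have key : ∀ (k : ℕ) (f : β), f ∈ (cstep U base R)^[k] [] → Der U base R f := by
      intro k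
      induction k with
      | zero =>
        intro f hf
        exact absurd hf List.not_mem_nil
      | succ k ih =>
        intro f hf
        rw [Function.iterate_succ_apply', mem_cstep] at hf
        obtain ⟨h1, h2 | h2 | ⟨g, hg, h, hh, hR⟩⟩ := hf
        · exact ih f h2
        · exact Der.base f h1 h2
        · exact Der.rule f g h h1 (ih g hg) (ih h hh) hR
    exact key _ f
  · intro h
    induction h with
    | base f hU hb => exact clo_fix (mem_cstep.2 ⟨hU, Or.inr (Or.inl hb)⟩)
    | rule f g h hU _ _ hR ihg ihh =>
      exact clo_fix (mem_cstep.2 ⟨hU, Or.inr (Or.inr ⟨g, ihg, h, ihh, hR⟩)⟩)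

theorem iterate_sublist (k : ℕ) : ((cstep U base R)^[k] []).Sublist U := by
  cases k with
  | zero => exact List.nil_sublist _
  | succ k =>
    rw [Function.iterate_succ_apply']
    exact List.filter_sublist

end

section

variable {α β γ : Type} [TEnc α] [TEnc β] [TEnc γ] [DecidableEq β]

theorem poly_clo {U : α → List β} {base : α → β → Bool} {R : α → β → β → β → Bool}
    (hU : Poly U) (hb : Poly fun p : α × β => base p.1 p.2)
    (hR : Poly fun p : α × β × β × β => R p.1 p.2.1 p.2.2.1 p.2.2.2) :
    Poly (fun a => clo (U a) (base a) (R a)) := by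
  obtain ⟨r, hr⟩ := hU.sz_le
  refine Poly.iterLen (F := fun a s => cstep (U a) (base a) (R a) s) hU (Pool.Agent.NPC.Poly.const []) ?_ r ?_
  · -- the step
    refine Poly.filter (p := fun (p : α × List β) f => decide (f ∈ p.2) || (base p.1 f ||
      p.2.any fun g => p.2.any fun h => R p.1 f g h)) (hU.comp (Poly.fst Poly.id)) ?_
    refine Poly.or (Poly.decide_mem (Poly.snd Poly.id) (Poly.snd (Poly.fst Poly.id))) (Poly.or ?_ ?_)
    · exact hb.comp (Poly.pair (Poly.fst (Poly.fst Poly.id)) (Poly.snd Poly.id))
    · refine Poly.any (p := fun (p : (α × List β) × β) g => p.1.2.any fun h => R p.1.1 p.2 g h)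
        (Poly.snd (Poly.fst Poly.id)) ?_
      refine Poly.any (p := fun (p : ((α × List β) × β) × β) h => R p.1.1.1 p.1.2 p.2 h)
        (Poly.snd (Poly.fst (Poly.fst Poly.id))) ?_
      exact hR.comp (Poly.pair (Poly.fst (Poly.fst (Poly.fst (Poly.fst Poly.id))))
        (Poly.pair (Poly.snd (Poly.fst (Poly.fst Poly.id)))
          (Poly.pair (Poly.snd (Poly.fst Poly.id)) (Poly.snd Poly.id))))
  · intro a k _
    exact (Pool.Agent.NPC.H612.sz_sublist (iterate_sublist k)).trans (hr a)

/-- The product of two lists. -/
def lprod (l : List β) (l' : List γ) : List (β × γ) := l.flatMap fun b => l'.map fun c => (b, c)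

theorem mem_lprod {l : List β} {l' : List γ} {b : β} {c : γ} :
    (b, c) ∈ lprod l l' ↔ b ∈ l ∧ c ∈ l' := by
  unfold lprod
  simp only [List.mem_flatMap, List.mem_map, Prod.mk.injEq]
  constructor
  · rintro ⟨b', hb', c', hc', rfl, rfl⟩
    exact ⟨hb', hc'⟩
  · rintro ⟨hb, hc⟩
    exact ⟨b, hb, c, hc, rfl, rfl⟩

theorem poly_lprod {l : α → List β} {l' : α → List γ} (hl : Poly l) (hl' : Poly l') :
    Poly (fun a => lprod (l a) (l' a)) := by
  refine Poly.flatMap (F := fun a b => (l' a).map fun c => (b, c)) hl ?_
  refine Pool.Agent.NPC.Poly.map (F := fun (p : α × β) c => (p.2, c)) (hl'.comp (Poly.fst Poly.id)) ?_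
  exact Poly.pair (Poly.snd (Poly.fst Poly.id)) (Poly.snd Poly.id)

end

end Q227.UB
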