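import Mathlib
import Pool.Agent.Q227.UB.Defs

/-!
# Labellings of the edges of a graph by `spine` or an orientation
-/

set_option autoImplicit false

namespace Q227.UB

variable {V : Type*} (T : SimpleGraph V)

/-- The number of the neighbours `w` of `x` with `τ x w = l`. -/
noncomputable def cn (τ : V → V → Fin 3) (x : V) (l : Fin 3) : ℕ :=
  {w | T.Adj x w ∧ τ x w = l}.ncard

/-- A labelling: `0` for a spine edge, `1` for an edge directed to the first vertex, `2` for an
edge directed to the second vertex. -/
def Lab (τ : V → V → Fin 3) : Prop :=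
  ∀ x w, T.Adj x w → (τ x w = 0 ↔ τ w x = 0) ∧ (τ x w = 1 ↔ τ w x = 2)

/-- The local condition. -/
def Loc (k : ℕ) (τ : V → V → Fin 3) (x : V) : Prop :=
  cn T τ x 1 ≤ cn T τ x 2 + cn T τ x 0 / 2 ∧ cn T τ x 2 + (cn T τ x 0 + 1) / 2 ≤ k

/-- The number of the vertices with an odd number of spine edges. -/
noncomputable def odds (τ : V → V → Fin 3) : ℕ := {x | cn T τ x 0 % 2 = 1}.ncard

/-- There is a labelling with the local conditions and `q` odd vertices. -/
def Good (k q : ℕ) : Prop :=
  ∃ τ : V → V → Fin 3, Lab T τ ∧ (∀ x, Loc T k τ x) ∧ odds T τ = q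

theorem cn_add [Finite V] (τ : V → V → Fin 3) (x : V) :
    cn T τ x 0 + cn T τ x 1 + cn T τ x 2 = (T.neighborSet x).ncard := by
  unfold cn
  rw [← Set.ncard_union_eq, ← Set.ncard_union_eq]
  · congr 1
    ext w
    simp only [Set.mem_union, Set.mem_ofPred_eq, SimpleGraph.mem_neighborSet]
    constructor
    · rintro ((h | h) | h) <;> exact h.1
    · intro h
      have : τ x w = 0 ∨ τ x w = 1 ∨ τ x w = 2 := by
        generalize τ x w = a
        fin_cases a <;> simp
      tauto
  · rw [Set.disjoint_left]
    rintro w (h | h) h' <;> simp only [Set.mem_ofPred_eq] at h h' <;> rw [h.2] at h' <;>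
      exact absurd h'.2 (by decide)
  · rw [Set.disjoint_left]
    rintro w h h'
    simp only [Set.mem_ofPred_eq] at h h'
    rw [h.2] at h'
    exact absurd h'.2 (by decide)

end Q227.UB
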