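import Mathlib
import Pool.Agent.Q227.UB.Lab

/-!
# Grouping the edges at one vertex
-/

set_option autoImplicit false

namespace Q227.UB

theorem enumeration {V : Type*} (A : Finset V) :
    ∃ f : V → ℕ, (∀ a ∈ A, ∀ b ∈ A, f a = f b → a = b) ∧ (∀ a ∈ A, f a < A.card) ∧
      ∀ j < A.card, ∃ a ∈ A, f a = j := by
  classical
  refine ⟨fun w => if h : w ∈ A then (A.equivFin ⟨w, h⟩ : ℕ) else 0, ?_, ?_, ?_⟩
  · intro a ha b hb hab
    simp only [ha, hb, dif_pos] at hab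
    have h1 := A.equivFin.injective (Fin.ext hab)
    exact congrArg Subtype.val h1
  · intro a ha
    simp only [ha, dif_pos]
    exact (A.equivFin ⟨a, ha⟩).2
  · intro j hj
    refine ⟨(A.equivFin.symm ⟨j, hj⟩).1, (A.equivFin.symm ⟨j, hj⟩).2, ?_⟩
    simp

theorem grouping {V : Type*} (A B C : Finset V) (hAB : Disjoint A B) (hAC : Disjoint A C)
    (hBC : Disjoint B C) (h : B.card ≤ C.card + A.card / 2) :
    ∃ G : V → ℕ, (∀ w, (w ∈ A ∨ w ∈ B ∨ w ∈ C) → G w < C.card + (A.card + 1) / 2) ∧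
      (∀ j < C.card + (A.card + 1) / 2, ∃ w, (w ∈ A ∨ w ∈ C) ∧ G w = j) ∧
      (∀ w ∈ C, ∀ w', (w' ∈ A ∨ w' ∈ C) → G w = G w' → w = w') ∧
      (∀ w ∈ B, ∀ w' ∈ B, G w = G w' → w = w') ∧
      ∀ a ∈ A, ∀ b ∈ A, ∀ c ∈ A, G a = G b → G b = G c → a = b ∨ b = c ∨ a = c := by
  classical
  obtain ⟨fA, hA1, hA2, hA3⟩ := enumeration A
  obtain ⟨fB, hB1, hB2, hB3⟩ := enumeration B
  obtain ⟨fC, hC1, hC2, hC3⟩ := enumeration C
  let G : V → ℕ := fun w => if w ∈ C then fC w else if w ∈ A then C.card + fA w / 2 else fB w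
  have gC : ∀ w ∈ C, G w = fC w := fun w hw => if_pos hw
  have gA : ∀ w ∈ A, G w = C.card + fA w / 2 := by
    intro w hw
    have h1 : w ∉ C := Finset.disjoint_left.1 hAC hw
    change (if w ∈ C then fC w else if w ∈ A then C.card + fA w / 2 else fB w) = _
    rw [if_neg h1, if_pos hw]
  have gB : ∀ w ∈ B, G w = fB w := by
    intro w hw
    have h1 : w ∉ C := Finset.disjoint_left.1 hBC hw
    have h2 : w ∉ A := Finset.disjoint_right.1 hAB hw
    change (if w ∈ C then fC w else if w ∈ A then C.card + fA w / 2 else fB w) = _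
    rw [if_neg h1, if_neg h2]
  refine ⟨G, ?_, ?_, ?_, ?_, ?_⟩
  · rintro w (hw | hw | hw)
    · rw [gA w hw]
      have := hA2 w hw
      omega
    · rw [gB w hw]
      have := hB2 w hw
      omega
    · rw [gC w hw]
      have := hC2 w hw
      omega
  · intro j hj
    by_cases h1 : j < C.card
    · obtain ⟨w, hw, hw'⟩ := hC3 j h1
      exact ⟨w, Or.inr hw, by rw [gC w hw, hw']⟩
    · obtain ⟨w, hw, hw'⟩ := hA3 (2 * (j - C.card)) (by omega)
      exact ⟨w, Or.inl hw, by rw [gA w hw, hw']; omega⟩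
  · intro w hw w' hw' he
    rw [gC w hw] at he
    have h1 := hC2 w hw
    rcases hw' with hw' | hw'
    · rw [gA w' hw'] at he
      omega
    · rw [gC w' hw'] at he
      exact hC1 w hw w' hw' he
  · intro w hw w' hw' he
    rw [gB w hw, gB w' hw'] at he
    exact hB1 w hw w' hw' he
  · intro a ha b hb c hc h1 h2
    rw [gA a ha, gA b hb] at h1
    rw [gA b hb, gA c hc] at h2
    by_cases h3 : fA a = fA b
    · exact Or.inl (hA1 a ha b hb h3)
    by_cases h4 : fA b = fA c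
    · exact Or.inr (Or.inl (hA1 b hb c hc h4))
    · refine Or.inr (Or.inr (hA1 a ha c hc ?_))
      omega

variable {V : Type*} (T : SimpleGraph V)

/-- The number of the pieces at `x`. -/
noncomputable def load (τ : V → V → Fin 3) (x : V) : ℕ := cn T τ x 2 + (cn T τ x 0 + 1) / 2

theorem local_grouping [Finite V] (τ : V → V → Fin 3) (x : V)
    (h : cn T τ x 1 ≤ cn T τ x 2 + cn T τ x 0 / 2) :
    ∃ G : V → ℕ, (∀ w, T.Adj x w → G w < load T τ x) ∧
      (∀ j < load T τ x, ∃ w, T.Adj x w ∧ G w = j) ∧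
      (∀ w w', T.Adj x w → T.Adj x w' → G w = G w' → τ x w = 2 → w ≠ w' → τ x w' = 1) ∧
      (∀ w w', T.Adj x w → T.Adj x w' → G w = G w' → τ x w = 1 → τ x w' = 1 → w = w') ∧
      ∀ a b c, T.Adj x a → T.Adj x b → T.Adj x c → G a = G b → G b = G c → τ x a = 0 →
        τ x b = 0 → τ x c = 0 → a = b ∨ b = c ∨ a = c := by
  classical
  have hfin : ∀ l : Fin 3, {w | T.Adj x w ∧ τ x w = l}.Finite := fun l => Set.toFinite _
  let S : Fin 3 → Finset V := fun l => (hfin l).toFinset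
  have hS : ∀ l w, w ∈ S l ↔ T.Adj x w ∧ τ x w = l := by
    intro l w
    exact (hfin l).mem_toFinset
  have hcard : ∀ l, (S l).card = cn T τ x l := by
    intro l
    unfold cn
    exact (Set.ncard_eq_toFinset_card _ (hfin l)).symm
  have hdis : ∀ l l', l ≠ l' → Disjoint (S l) (S l') := by
    intro l l' hl
    rw [Finset.disjoint_left]
    intro w hw hw'
    exact hl (((hS l w).1 hw).2.symm.trans ((hS l' w).1 hw').2)
  have hcases : ∀ w, T.Adj x w → w ∈ S 0 ∨ w ∈ S 1 ∨ w ∈ S 2 := by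
    intro w hw
    rw [hS, hS, hS]
    have : τ x w = 0 ∨ τ x w = 1 ∨ τ x w = 2 := by
      generalize τ x w = a
      fin_cases a <;> simp
    tauto
  obtain ⟨G, h1, h2, h3, h4, h5⟩ := grouping (S 0) (S 1) (S 2) (hdis 0 1 (by decide))
    (hdis 0 2 (by decide)) (hdis 1 2 (by decide)) (by rw [hcard, hcard, hcard]; exact h)
  rw [hcard, hcard] at h1 h2
  refine ⟨G, fun w hw => h1 w (hcases w hw), ?_, ?_, ?_, ?_⟩
  · intro j hj
    obtain ⟨w, hw, hw'⟩ := h2 j hj
    refine ⟨w, ?_, hw'⟩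
    rcases hw with hw | hw
    · exact ((hS _ w).1 hw).1
    · exact ((hS _ w).1 hw).1
  · intro w w' hw hw' he h6 hne
    rcases hcases w' hw' with h7 | h7 | h7
    · exact absurd (h3 w ((hS 2 w).2 ⟨hw, h6⟩) w' (Or.inl h7) he) hne
    · exact ((hS 1 w').1 h7).2
    · exact absurd (h3 w ((hS 2 w).2 ⟨hw, h6⟩) w' (Or.inr h7) he) hne
  · intro w w' hw hw' he h6 h7
    exact h4 w ((hS 1 w).2 ⟨hw, h6⟩) w' ((hS 1 w').2 ⟨hw', h7⟩) he
  · intro a b c ha hb hc h6 h7 h8 h9 h10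
    exact h5 a ((hS 0 a).2 ⟨ha, h8⟩) b ((hS 0 b).2 ⟨hb, h9⟩) c ((hS 0 c).2 ⟨hc, h10⟩) h6 h7

end Q227.UB
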