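import Mathlib
import Pool.Agent.Q227.UB.Grp

/-!
# Counting: the sum of the loads
-/

set_option autoImplicit false

namespace Q227.UB

open Finset Classical

variable {V : Type*} [Fintype V] {T : SimpleGraph V}

theorem cn_eq (τ : V → V → Fin 3) (x : V) (l : Fin 3) :
    cn T τ x l = ∑ w, if T.Adj x w ∧ τ x w = l then 1 else 0 := by
  unfold cn
  rw [← card_filter, ← Set.ncard_coe_finset]
  congr 1
  ext w
  simp

theorem sum_one_two {τ : V → V → Fin 3} (hL : Lab T τ) :
    ∑ x, cn T τ x 1 = ∑ x, cn T τ x 2 := by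
  rw [sum_congr rfl fun x _ => cn_eq τ x 1, sum_congr rfl fun x _ => cn_eq τ x 2, sum_comm]
  refine sum_congr rfl fun x _ => sum_congr rfl fun w _ => ?_
  have h : (T.Adj w x ∧ τ w x = 1) ↔ (T.Adj x w ∧ τ x w = 2) := by
    constructor
    · rintro ⟨h1, h2⟩
      exact ⟨h1.symm, ((hL w x h1).2).1 h2⟩
    · rintro ⟨h1, h2⟩
      exact ⟨h1.symm, ((hL w x h1.symm).2).2 h2⟩
  simp only [h]

theorem sum_deg (hT : T.IsTree) : ∑ x, (T.neighborSet x).ncard + 2 = 2 * Fintype.card V := by
  have h1 : ∀ x, (T.neighborSet x).ncard = T.degree x := by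
    intro x
    rw [Set.ncard_eq_toFinset_card']
    rfl
  rw [sum_congr rfl fun x _ => h1 x, T.sum_degrees_eq_twice_card_edges]
  have h2 := hT.card_edgeFinset
  rw [← h2]
  ring

theorem sum_load (hT : T.IsTree) {τ : V → V → Fin 3} (hL : Lab T τ) :
    2 * ∑ x, load T τ x + 2 = 2 * Fintype.card V + odds T τ := by
  have h1 : ∀ x, 2 * load T τ x = 2 * cn T τ x 2 + cn T τ x 0 +
      if cn T τ x 0 % 2 = 1 then 1 else 0 := by
    intro x
    unfold load
    split_ifs <;> omega
  have h2 : odds T τ = ∑ x, if cn T τ x 0 % 2 = 1 then 1 else 0 := by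
    unfold odds
    rw [← card_filter, ← Set.ncard_coe_finset]
    congr 1
    ext w
    simp
  have h3 : ∑ x, (cn T τ x 0 + cn T τ x 1 + cn T τ x 2) = ∑ x, (T.neighborSet x).ncard :=
    sum_congr rfl fun x _ => cn_add T τ x
  rw [mul_sum, sum_congr rfl fun x _ => h1 x, sum_add_distrib, ← h2, sum_add_distrib, ← mul_sum]
  rw [sum_add_distrib, sum_add_distrib, sum_one_two hL] at h3
  have h4 := sum_deg hT
  omega

end Q227.UB
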