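import Mathlib

/-!
# Distances in trees
-/

set_option autoImplicit false

namespace Q227.UB

variable {V : Type*} {G : SimpleGraph V}

theorem exists_closer (hG : G.IsTree) {r x : V} (h : x ≠ r) :
    ∃ a, G.Adj x a ∧ G.dist r x = G.dist r a + 1 := by
  obtain ⟨p, hp, hlen⟩ := hG.connected.exists_path_of_dist x r
  cases p with
  | nil => exact absurd rfl h
  | @cons _ a _ hadj p' =>
    refine ⟨a, hadj, ?_⟩
    rw [SimpleGraph.Walk.length_cons] at hlen
    have h1 : G.dist a r ≤ p'.length := SimpleGraph.dist_le p'
    rcases hG.dist_eq_dist_add_one_of_adj r hadj with h2 | h2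
    · exact h2
    · rw [SimpleGraph.dist_comm] at h1
      rw [SimpleGraph.dist_comm] at hlen
      omega

theorem closer_unique (hG : G.IsTree) {r x a b : V} (ha : G.Adj x a) (hb : G.Adj x b)
    (hda : G.dist r x = G.dist r a + 1) (hdb : G.dist r x = G.dist r b + 1) : a = b := by
  obtain ⟨p, hp, hpl⟩ := hG.connected.exists_path_of_dist r a
  obtain ⟨q, hq, hql⟩ := hG.connected.exists_path_of_dist r b
  have h1 : (p.concat ha.symm).IsPath := by
    apply SimpleGraph.Walk.isPath_of_length_eq_dist
    rw [SimpleGraph.Walk.length_concat, hpl, hda]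
  have h2 : (q.concat hb.symm).IsPath := by
    apply SimpleGraph.Walk.isPath_of_length_eq_dist
    rw [SimpleGraph.Walk.length_concat, hql, hdb]
  have h3 := (hG.existsUnique_path r x).unique h1 h2
  have h4 := congrArg SimpleGraph.Walk.penultimate h3
  simpa using h4

/-- The vertices on the path from `r` to `t`. -/
def seg (G : SimpleGraph V) (r t : V) : Set V := {x | G.dist r x + G.dist x t = G.dist r t}

theorem left_mem_seg (r t : V) : r ∈ seg G r t := by simp [seg]

theorem right_mem_seg (r t : V) : t ∈ seg G r t := by simp [seg]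

theorem support_sub_seg (hG : G.IsTree) {u v : V} (p : G.Walk u v) (hp : p.IsPath) :
    ∀ x ∈ p.support, x ∈ seg G u v := by
  classical
  have hlen : ∀ {a b : V} (q : G.Walk a b), q.IsPath → q.length = G.dist a b := by
    intro a b q hq
    obtain ⟨q', hq', hl⟩ := hG.connected.exists_path_of_dist a b
    rw [(hG.existsUnique_path a b).unique hq hq', hl]
  intro x hx
  have h1 := hlen _ (hp.takeUntil hx)
  have h2 := hlen _ (hp.dropUntil hx)
  have h3 := hlen _ hp
  have h4 := p.take_spec hx
  have h5 := congrArg SimpleGraph.Walk.length h4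
  rw [SimpleGraph.Walk.length_append] at h5
  change G.dist u x + G.dist x v = G.dist u v
  omega

theorem closer_left_mem (hG : G.IsTree) {r t x a : V} (hx : x ∈ seg G r t) (ha : G.Adj x a)
    (h : G.dist r x = G.dist r a + 1) : a ∈ seg G r t := by
  have h1 : G.dist r t ≤ G.dist r a + G.dist a t := hG.connected.dist_triangle
  have h2 : G.dist a t ≤ G.dist a x + G.dist x t := hG.connected.dist_triangle
  have h3 : G.dist a x = 1 := SimpleGraph.dist_eq_one_iff_adj.2 ha.symm
  have h4 : G.dist r x + G.dist x t = G.dist r t := hx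
  change G.dist r a + G.dist a t = G.dist r t
  omega

theorem closer_right_mem (hG : G.IsTree) {r t x a : V} (hx : x ∈ seg G r t) (ha : G.Adj x a)
    (h : G.dist t x = G.dist t a + 1) : a ∈ seg G r t := by
  have h1 : G.dist r t ≤ G.dist r a + G.dist a t := hG.connected.dist_triangle
  have h2 : G.dist r a ≤ G.dist r x + G.dist x a := hG.connected.dist_triangle
  have h3 : G.dist x a = 1 := SimpleGraph.dist_eq_one_iff_adj.2 ha
  have h4 : G.dist r x + G.dist x t = G.dist r t := hx
  rw [SimpleGraph.dist_comm (u := t) (v := x), SimpleGraph.dist_comm (u := t) (v := a)] at h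
  change G.dist r a + G.dist a t = G.dist r t
  omega

theorem seg_adj_cases (hG : G.IsTree) {r t x w : V} (hx : x ∈ seg G r t) (hw : w ∈ seg G r t)
    (h : G.Adj x w) : G.dist r x = G.dist r w + 1 ∨
      (G.dist r w = G.dist r x + 1 ∧ G.dist t x = G.dist t w + 1) := by
  have h4 : G.dist r x + G.dist x t = G.dist r t := hx
  have h5 : G.dist r w + G.dist w t = G.dist r t := hw
  rw [SimpleGraph.dist_comm (u := x) (v := t)] at h4
  rw [SimpleGraph.dist_comm (u := w) (v := t)] at h5
  rcases hG.dist_eq_dist_add_one_of_adj r h with h2 | h2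
  · exact Or.inl h2
  · right
    exact ⟨h2, by omega⟩

theorem farther_right (hG : G.IsTree) {r t x w : V} (hx : x ∈ seg G r t) (h : G.Adj x w)
    (h2 : G.dist t x = G.dist t w + 1) : G.dist r w = G.dist r x + 1 := by
  have hw := closer_right_mem hG hx h h2
  have h4 : G.dist r x + G.dist x t = G.dist r t := hx
  have h5 : G.dist r w + G.dist w t = G.dist r t := hw
  rw [SimpleGraph.dist_comm (u := x) (v := t)] at h4
  rw [SimpleGraph.dist_comm (u := w) (v := t)] at h5
  omega

/-- A path that contains all vertices of a set can be extended to one between leaves. -/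
theorem exists_leaves [Finite V] (hG : G.IsTree) (hne : ∃ a b, G.Adj a b) (A : Set V)
    {u v : V} (hA : A ⊆ seg G u v) :
    ∃ r t, r ≠ t ∧ A ⊆ seg G r t ∧ (∀ w, G.Adj r w → G.dist t r = G.dist t w + 1) ∧
      ∀ w, G.Adj t w → G.dist r t = G.dist r w + 1 := by
  have hfin : {d | ∃ r t, A ⊆ seg G r t ∧ G.dist r t = d}.Finite := by
    have : Finite (V × V) := inferInstance
    refine (Set.finite_range fun q : V × V => G.dist q.1 q.2).subset ?_
    rintro d ⟨r, t, -, rfl⟩
    exact ⟨(r, t), rfl⟩
  obtain ⟨d, hd⟩ := hfin.exists_maximal ⟨_, u, v, hA, rfl⟩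
  obtain ⟨r, t, hrt, hdist⟩ := hd.prop
  have hmax : ∀ r' t', A ⊆ seg G r' t' → G.dist r' t' ≤ d := by
    intro r' t' h
    by_contra hlt
    have := hd.le_of_ge ⟨r', t', h, rfl⟩ (not_le.1 hlt).le
    exact hlt this
  have hstep1 : ∀ w, G.Adj r w → G.dist t r = G.dist t w + 1 := by
    intro w hw
    rcases hG.dist_eq_dist_add_one_of_adj t hw with h2 | h2
    · exact h2
    · exfalso
      have h3 : A ⊆ seg G w t := by
        intro x hx
        have h4 : G.dist r x + G.dist x t = G.dist r t := hrt hx
        have h5 : G.dist w x ≤ G.dist w r + G.dist r x := hG.connected.dist_triangle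
        have h6 : G.dist w r = 1 := SimpleGraph.dist_eq_one_iff_adj.2 hw.symm
        have h7 : G.dist w t ≤ G.dist w x + G.dist x t := hG.connected.dist_triangle
        rw [SimpleGraph.dist_comm (u := t) (v := w), SimpleGraph.dist_comm (u := t) (v := r)] at h2
        change G.dist w x + G.dist x t = G.dist w t
        omega
      have h4 := hmax w t h3
      rw [SimpleGraph.dist_comm (u := t) (v := w), SimpleGraph.dist_comm (u := t) (v := r)] at h2
      omega
  have hstep2 : ∀ w, G.Adj t w → G.dist r t = G.dist r w + 1 := by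
    intro w hw
    rcases hG.dist_eq_dist_add_one_of_adj r hw with h2 | h2
    · exact h2
    · exfalso
      have h3 : A ⊆ seg G r w := by
        intro x hx
        have h4 : G.dist r x + G.dist x t = G.dist r t := hrt hx
        have h5 : G.dist x w ≤ G.dist x t + G.dist t w := hG.connected.dist_triangle
        have h6 : G.dist t w = 1 := SimpleGraph.dist_eq_one_iff_adj.2 hw
        have h7 : G.dist r w ≤ G.dist r x + G.dist x w := hG.connected.dist_triangle
        change G.dist r x + G.dist x w = G.dist r w
        omega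
      have h4 := hmax r w h3
      omega
  refine ⟨r, t, ?_, hrt, hstep1, hstep2⟩
  rintro rfl
  obtain ⟨a, b, hab⟩ := hne
  obtain ⟨w, hw⟩ : ∃ w, G.Adj r w := by
    by_cases h : r = a
    · exact ⟨b, h ▸ hab⟩
    · obtain ⟨w, hw, -⟩ := exists_closer hG h
      exact ⟨w, hw⟩
  have h1 := hstep1 w hw
  rw [SimpleGraph.dist_self] at h1
  omega

end Q227.UB
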