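import Mathlib
import Pool.Agent.Q227.UB.Lab
import Pool.Agent.Q227.UB.Geo

/-!
# The labelling of a unit bar visibility tree
-/

set_option autoImplicit false

namespace Q227.UB

open Classical in
/-- The labelling given by a path. -/
noncomputable def pl {V : Type*} (G : SimpleGraph V) (r t x w : V) : Fin 3 :=
  if x ∈ seg G r t ∧ w ∈ seg G r t then 0 else if G.dist r x = G.dist r w + 1 then 2 else 1

theorem pl_zero {V : Type*} {G : SimpleGraph V} {r t x w : V} :
    pl G r t x w = 0 ↔ x ∈ seg G r t ∧ w ∈ seg G r t := by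
  unfold pl
  split_ifs with h1 h2 <;> simp [h1]

theorem pl_two {V : Type*} {G : SimpleGraph V} {r t x w : V} :
    pl G r t x w = 2 ↔ ¬ (x ∈ seg G r t ∧ w ∈ seg G r t) ∧ G.dist r x = G.dist r w + 1 := by
  unfold pl
  split_ifs with h1 h2 <;> simp [h1, *]

theorem pl_one {V : Type*} {G : SimpleGraph V} {r t x w : V} :
    pl G r t x w = 1 ↔ ¬ (x ∈ seg G r t ∧ w ∈ seg G r t) ∧ ¬ G.dist r x = G.dist r w + 1 := by
  unfold pl
  split_ifs with h1 h2 <;> simp [h1, *]

theorem piece_lab {V : Type*} [Finite V] {G : SimpleGraph V} (hG : IsUBVT G)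
    (hne : ∃ a b, G.Adj a b) :
    ∃ τ : V → V → Fin 3, Lab G τ ∧
      (∀ x, cn G τ x 1 ≤ cn G τ x 2 + cn G τ x 0 / 2 ∧ cn G τ x 2 + (cn G τ x 0 + 1) / 2 = 1) ∧
      odds G τ ≤ 2 := by
  obtain ⟨hT, hdeg, u, v, p, hp, hp3⟩ := hG
  obtain ⟨r, t, hrt, hA, hr, ht⟩ := exists_leaves hT hne {x | (G.neighborSet x).ncard = 3}
    (u := u) (v := v) (fun x hx => support_sub_seg hT p hp x (hp3 x hx))
  have hrs : r ∈ seg G r t := left_mem_seg r t
  have hts : t ∈ seg G r t := right_mem_seg r t
  -- vertices outside of the path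
  have hout : ∀ x, x ∉ seg G r t → cn G (pl G r t) x 0 = 0 ∧ cn G (pl G r t) x 2 = 1 ∧
      cn G (pl G r t) x 1 ≤ 1 := by
    intro x hx
    have hxr : x ≠ r := fun h => hx (h ▸ hrs)
    obtain ⟨a, ha, hda⟩ := exists_closer hT hxr
    have h0 : cn G (pl G r t) x 0 = 0 := by
      unfold cn
      rw [Set.ncard_eq_zero]
      ext w
      simp only [Set.mem_ofPred_eq, Set.mem_empty_iff_false, iff_false, not_and]
      intro _ h
      exact hx (pl_zero.1 h).1
    have h2 : cn G (pl G r t) x 2 = 1 := by
      unfold cn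
      rw [Set.ncard_eq_one]
      refine ⟨a, ?_⟩
      ext w
      simp only [Set.mem_ofPred_eq, Set.mem_singleton_iff]
      constructor
      · rintro ⟨h, h'⟩
        exact closer_unique hT h ha (pl_two.1 h').2 hda
      · rintro rfl
        exact ⟨ha, pl_two.2 ⟨fun h => hx h.1, hda⟩⟩
    have h3 := cn_add G (pl G r t) x
    have h4 := hdeg x
    have h5 : (G.neighborSet x).ncard ≠ 3 := fun h => hx (hA h)
    exact ⟨h0, h2, by omega⟩
  -- vertices on the path
  have hin2 : ∀ x ∈ seg G r t, cn G (pl G r t) x 2 = 0 := by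
    intro x hx
    unfold cn
    rw [Set.ncard_eq_zero]
    ext w
    simp only [Set.mem_ofPred_eq, Set.mem_empty_iff_false, iff_false, not_and]
    intro h h'
    exact (pl_two.1 h').1 ⟨hx, closer_left_mem hT hx h (pl_two.1 h').2⟩
  have hinner : ∀ x ∈ seg G r t, x ≠ r → x ≠ t → cn G (pl G r t) x 0 = 2 ∧
      cn G (pl G r t) x 1 ≤ 1 := by
    intro x hx hxr hxt
    obtain ⟨a, ha, hda⟩ := exists_closer hT hxr
    obtain ⟨b, hb, hdb⟩ := exists_closer hT hxt
    have hab : a ≠ b := by
      rintro rfl
      have := farther_right hT hx ha hdb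
      omega
    have h0 : cn G (pl G r t) x 0 = 2 := by
      unfold cn
      rw [Set.ncard_eq_two]
      refine ⟨a, b, hab, ?_⟩
      ext w
      simp only [Set.mem_ofPred_eq, Set.mem_insert_iff, Set.mem_singleton_iff]
      constructor
      · rintro ⟨h, h'⟩
        rcases seg_adj_cases hT hx (pl_zero.1 h').2 h with h5 | ⟨h5, h6⟩
        · exact Or.inl (closer_unique hT h ha h5 hda)
        · exact Or.inr (closer_unique hT h hb h6 hdb)
      · rintro (rfl | rfl)
        · exact ⟨ha, pl_zero.2 ⟨hx, closer_left_mem hT hx ha hda⟩⟩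
        · exact ⟨hb, pl_zero.2 ⟨hx, closer_right_mem hT hx hb hdb⟩⟩
    have h3 := cn_add G (pl G r t) x
    have h4 := hdeg x
    exact ⟨h0, by omega⟩
  have hend : ∀ x, x = r ∨ x = t → cn G (pl G r t) x 0 = 1 ∧ cn G (pl G r t) x 1 = 0 := by
    rintro x (rfl | rfl)
    · obtain ⟨b, hb, hdb⟩ := exists_closer hT hrt
      constructor
      · unfold cn
        rw [Set.ncard_eq_one]
        refine ⟨b, ?_⟩
        ext w
        simp only [Set.mem_ofPred_eq, Set.mem_singleton_iff]
        constructor
        · rintro ⟨h, h'⟩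
          exact closer_unique hT h hb (hr w h) hdb
        · rintro rfl
          exact ⟨hb, pl_zero.2 ⟨hrs, closer_right_mem hT hrs hb hdb⟩⟩
      · unfold cn
        rw [Set.ncard_eq_zero]
        ext w
        simp only [Set.mem_ofPred_eq, Set.mem_empty_iff_false, iff_false, not_and]
        intro h h'
        exact (pl_one.1 h').1 ⟨hrs, closer_right_mem hT hrs h (hr w h)⟩
    · obtain ⟨b, hb, hdb⟩ := exists_closer hT hrt.symm
      constructor
      · unfold cn
        rw [Set.ncard_eq_one]
        refine ⟨b, ?_⟩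
        ext w
        simp only [Set.mem_ofPred_eq, Set.mem_singleton_iff]
        constructor
        · rintro ⟨h, h'⟩
          exact closer_unique hT h hb (ht w h) hdb
        · rintro rfl
          exact ⟨hb, pl_zero.2 ⟨hts, closer_left_mem hT hts hb hdb⟩⟩
      · unfold cn
        rw [Set.ncard_eq_zero]
        ext w
        simp only [Set.mem_ofPred_eq, Set.mem_empty_iff_false, iff_false, not_and]
        intro h h'
        exact (pl_one.1 h').1 ⟨hts, closer_left_mem hT hts h (ht w h)⟩
  refine ⟨pl G r t, ?_, ?_, ?_⟩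
  · intro x w h
    refine ⟨by rw [pl_zero, pl_zero, and_comm], ?_⟩
    rw [pl_one, pl_two, and_comm (a := x ∈ seg G r t)]
    refine and_congr Iff.rfl ?_
    rcases hT.dist_eq_dist_add_one_of_adj r h with h2 | h2
    · constructor
      · intro h3
        exact absurd h2 h3
      · intro h3
        omega
    · constructor
      · intro _
        exact h2
      · intro _ h3
        omega
  · intro x
    by_cases hx : x ∈ seg G r t
    · by_cases hx1 : x = r ∨ x = t
      · obtain ⟨h1, h2⟩ := hend x hx1
        have h3 := hin2 x hx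
        omega
      · rw [not_or] at hx1
        obtain ⟨h1, h2⟩ := hinner x hx hx1.1 hx1.2
        have h3 := hin2 x hx
        omega
    · obtain ⟨h1, h2, h3⟩ := hout x hx
      omega
  · unfold odds
    refine (Set.ncard_le_ncard (t := {r, t}) ?_ (Set.toFinite _)).trans
      ((Set.ncard_insert_le _ _).trans (by rw [Set.ncard_singleton]))
    intro x hx
    simp only [Set.mem_ofPred_eq] at hx
    by_contra hne
    simp only [Set.mem_insert_iff, Set.mem_singleton_iff, not_or] at hne
    by_cases hxs : x ∈ seg G r t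
    · have := (hinner x hxs hne.1 hne.2).1
      omega
    · have := (hout x hxs).1
      omega

end Q227.UB
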