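import Mathlib
import Pool.Agent.Q227.UB.PieceA

/-!
# From decompositions to labellings
-/

set_option autoImplicit false

namespace Q227.UB

open Finset Classical

theorem sum_half_le {ι : Type*} (s : Finset ι) (a : ι → ℕ) :
    ∑ i ∈ s, a i / 2 ≤ (∑ i ∈ s, a i) / 2 := by
  induction s using Finset.induction_on with
  | empty => simp
  | insert i s hi ih =>
    rw [sum_insert hi, sum_insert hi]
    omega

theorem half_sum_le {ι : Type*} (s : Finset ι) (a : ι → ℕ) :
    (∑ i ∈ s, a i + 1) / 2 ≤ ∑ i ∈ s, (a i + 1) / 2 := by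
  induction s using Finset.induction_on with
  | empty => simp
  | insert i s hi ih =>
    rw [sum_insert hi, sum_insert hi]
    omega

theorem exists_odd_of_sum {ι : Type*} (s : Finset ι) (a : ι → ℕ) (h : (∑ i ∈ s, a i) % 2 = 1) :
    ∃ i ∈ s, a i % 2 = 1 := by
  by_contra hne
  push Not at hne
  have : ∑ i ∈ s, a i = ∑ i ∈ s, 2 * (a i / 2) := by
    refine sum_congr rfl fun i hi => ?_
    have := hne i hi
    omega
  rw [this, ← mul_sum] at h
  omega

theorem decomp_good {V : Type*} [Finite V] {T : SimpleGraph V} {k ℓ : ℕ}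
    (h : Decomposes T k ℓ) : ∃ q ≤ 2 * ℓ, Good T k q := by
  obtain ⟨P, hP, hpart, hload⟩ := h
  have hfin : Fintype V := Fintype.ofFinite V
  have hlab : ∀ i, ∃ τ : (P i).verts → (P i).verts → Fin 3, Lab (P i).coe τ ∧
      (∀ x, cn (P i).coe τ x 1 ≤ cn (P i).coe τ x 2 + cn (P i).coe τ x 0 / 2 ∧
        cn (P i).coe τ x 2 + (cn (P i).coe τ x 0 + 1) / 2 = 1) ∧ odds (P i).coe τ ≤ 2 := by
    intro i
    refine piece_lab (hP i).2 ?_
    obtain ⟨e, he⟩ := (hP i).1
    induction e using Sym2.ind with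
    | _ a b =>
      have hab : (P i).Adj a b := he
      exact ⟨⟨a, hab.fst_mem⟩, ⟨b, hab.snd_mem⟩, hab⟩
  choose τi h1 h2 h3 using hlab
  have huniq : ∀ x w (h : T.Adj x w), ∃! i, (P i).Adj x w := fun x w h => hpart s(x, w) h
  let τ : V → V → Fin 3 := fun x w =>
    if h : ∃ i, (P i).Adj x w then
      τi h.choose ⟨x, h.choose_spec.fst_mem⟩ ⟨w, h.choose_spec.snd_mem⟩ else 0
  have hτ : ∀ i x w (h : (P i).Adj x w), τ x w = τi i ⟨x, h.fst_mem⟩ ⟨w, h.snd_mem⟩ := by
    intro i x w h
    have hex : ∃ i, (P i).Adj x w := ⟨i, h⟩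
    have heq : hex.choose = i := (huniq x w h.adj_sub).unique hex.choose_spec h
    change (if h : ∃ i, (P i).Adj x w then
      τi h.choose ⟨x, h.choose_spec.fst_mem⟩ ⟨w, h.choose_spec.snd_mem⟩ else 0) = _
    rw [dif_pos hex]
    have hgen : ∀ j (hj : (P j).Adj x w), j = i →
        τi j ⟨x, hj.fst_mem⟩ ⟨w, hj.snd_mem⟩ = τi i ⟨x, h.fst_mem⟩ ⟨w, h.snd_mem⟩ := by
      rintro j hj rfl
      rfl
    exact hgen _ hex.choose_spec heq
  -- the local counts
  let c : Fin ℓ → V → Fin 3 → ℕ := fun i x l => {w | (P i).Adj x w ∧ τ x w = l}.ncard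
  have hc1 : ∀ i x (hx : x ∈ (P i).verts) l, c i x l = cn (P i).coe (τi i) ⟨x, hx⟩ l := by
    intro i x hx l
    have hset : {w | (P i).Adj x w ∧ τ x w = l} =
        Subtype.val '' {y | (P i).coe.Adj ⟨x, hx⟩ y ∧ τi i ⟨x, hx⟩ y = l} := by
      ext w
      simp only [Set.mem_ofPred_eq, Set.mem_image, Subtype.exists, exists_and_right,
        exists_eq_right, SimpleGraph.Subgraph.coe_adj]
      constructor
      · rintro ⟨h, h'⟩
        exact ⟨h.snd_mem, h, by rw [← hτ i x w h]; exact h'⟩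
      · rintro ⟨hw, h, h'⟩
        exact ⟨h, by rw [hτ i x w h]; exact h'⟩
    change {w | (P i).Adj x w ∧ τ x w = l}.ncard = _
    rw [hset, Set.ncard_image_of_injective _ Subtype.val_injective]
    rfl
  have hc0 : ∀ i x, x ∉ (P i).verts → ∀ l, c i x l = 0 := by
    intro i x hx l
    change {w | (P i).Adj x w ∧ τ x w = l}.ncard = 0
    rw [Set.ncard_eq_zero]
    ext w
    simp only [Set.mem_ofPred_eq, Set.mem_empty_iff_false, iff_false, not_and]
    intro h
    exact absurd h.fst_mem hx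
  have hsum : ∀ x l, cn T τ x l = ∑ i, c i x l := by
    intro x l
    have e1 : cn T τ x l = (univ.filter fun w => T.Adj x w ∧ τ x w = l).card := by
      unfold cn
      rw [← Set.ncard_coe_finset]
      congr 1
      ext w
      simp
    have e2 : ∀ i, c i x l = (univ.filter fun w => (P i).Adj x w ∧ τ x w = l).card := by
      intro i
      change {w | (P i).Adj x w ∧ τ x w = l}.ncard = _
      rw [← Set.ncard_coe_finset]
      congr 1
      ext w
      simp
    rw [e1, sum_congr rfl fun i _ => e2 i, ← card_biUnion]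
    · congr 1
      ext w
      simp only [mem_filter, mem_univ, true_and, mem_biUnion]
      constructor
      · rintro ⟨h, h'⟩
        obtain ⟨i, hi, -⟩ := huniq x w h
        exact ⟨i, hi, h'⟩
      · rintro ⟨i, hi, h'⟩
        exact ⟨hi.adj_sub, h'⟩
    · intro i _ j _ hij
      change Disjoint _ _
      rw [Finset.disjoint_left]
      intro w hw hw'
      simp only [mem_filter, mem_univ, true_and] at hw hw'
      exact hij ((huniq x w hw.1.adj_sub).unique hw.1 hw'.1)
  refine ⟨odds T τ, ?_, τ, ?_, ?_, rfl⟩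
  · -- the number of odd vertices
    have hsub : {x | cn T τ x 0 % 2 = 1} ⊆
        ⋃ i : Fin ℓ, (Subtype.val '' {y : (P i).verts | cn (P i).coe (τi i) y 0 % 2 = 1}) := by
      intro x hx
      simp only [Set.mem_ofPred_eq] at hx
      rw [hsum] at hx
      obtain ⟨i, -, hi⟩ := exists_odd_of_sum _ _ hx
      have hxv : x ∈ (P i).verts := by
        by_contra hxv
        rw [hc0 i x hxv] at hi
        omega
      rw [hc1 i x hxv] at hi
      exact Set.mem_iUnion.2 ⟨i, ⟨x, hxv⟩, hi, rfl⟩
    unfold odds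
    refine (Set.ncard_le_ncard hsub (Set.toFinite _)).trans ?_
    refine (Set.ncard_iUnion_le_of_fintype _).trans ?_
    refine (sum_le_card_nsmul _ _ 2 fun i _ => ?_).trans ?_
    · rw [Set.ncard_image_of_injective _ Subtype.val_injective]
      exact h3 i
    · rw [card_univ, Fintype.card_fin, smul_eq_mul, mul_comm]
  · intro x w hxw
    obtain ⟨i, hi, -⟩ := huniq x w hxw
    have h4 := h1 i ⟨x, hi.fst_mem⟩ ⟨w, hi.snd_mem⟩ hi
    rw [hτ i x w hi, hτ i w x hi.symm]
    exact h4
  · intro x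
    have hle : ∀ i, c i x 1 ≤ c i x 2 + c i x 0 / 2 := by
      intro i
      by_cases hxv : x ∈ (P i).verts
      · rw [hc1 i x hxv, hc1 i x hxv, hc1 i x hxv]
        exact (h2 i _).1
      · rw [hc0 i x hxv]
        exact Nat.zero_le _
    have hone : ∀ i, c i x 2 + (c i x 0 + 1) / 2 = if x ∈ (P i).verts then 1 else 0 := by
      intro i
      by_cases hxv : x ∈ (P i).verts
      · rw [hc1 i x hxv, hc1 i x hxv, if_pos hxv]
        exact (h2 i _).2
      · rw [hc0 i x hxv, hc0 i x hxv, if_neg hxv]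
    unfold Loc
    rw [hsum, hsum, hsum]
    constructor
    · calc ∑ i, c i x 1 ≤ ∑ i, (c i x 2 + c i x 0 / 2) := sum_le_sum fun i _ => hle i
        _ = ∑ i, c i x 2 + ∑ i, c i x 0 / 2 := sum_add_distrib
        _ ≤ _ := Nat.add_le_add_left (sum_half_le _ _) _
    · calc ∑ i, c i x 2 + (∑ i, c i x 0 + 1) / 2 ≤ ∑ i, c i x 2 + ∑ i, (c i x 0 + 1) / 2 :=
            Nat.add_le_add_left (half_sum_le _ _) _
        _ = ∑ i, (c i x 2 + (c i x 0 + 1) / 2) := sum_add_distrib.symm
        _ = ∑ i, (if x ∈ (P i).verts then 1 else 0) := sum_congr rfl fun i _ => hone i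
        _ = (univ.filter fun i => x ∈ (P i).verts).card := by rw [card_filter]
        _ ≤ k := by
          refine le_trans (le_of_eq ?_) (hload x)
          rw [← Set.ncard_coe_finset]
          congr 1
          simp only [coe_filter, mem_univ, true_and]

end Q227.UB
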