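import Mathlib
import Pool.Agent.Q227.UB.Geo

/-!
# Rooted trees: the parent of a vertex
-/

set_option autoImplicit false

namespace Q227.UB

variable {V : Type*} {T : SimpleGraph V}

open Classical in
/-- The neighbour of `v` closer to the root `ρ`. -/
noncomputable def par (T : SimpleGraph V) (ρ v : V) : V :=
  if h : ∃ a, T.Adj v a ∧ T.dist ρ v = T.dist ρ a + 1 then h.choose else v

theorem par_spec (hT : T.IsTree) {ρ v : V} (h : v ≠ ρ) :
    T.Adj v (par T ρ v) ∧ T.dist ρ v = T.dist ρ (par T ρ v) + 1 := by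
  have hex := exists_closer hT h
  unfold par
  rw [dif_pos hex]
  exact hex.choose_spec

theorem par_eq (hT : T.IsTree) {ρ v a : V} (h : T.Adj v a) (hd : T.dist ρ v = T.dist ρ a + 1) :
    v ≠ ρ ∧ par T ρ v = a := by
  have hv : v ≠ ρ := by
    rintro rfl
    rw [SimpleGraph.dist_self] at hd
    omega
  have h1 := par_spec hT hv
  exact ⟨hv, closer_unique hT h1.1 h h1.2 hd⟩

theorem adj_cases (hT : T.IsTree) (ρ : V) {x w : V} (h : T.Adj x w) :
    (w ≠ ρ ∧ par T ρ w = x) ∨ (x ≠ ρ ∧ par T ρ x = w) := by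
  rcases hT.dist_eq_dist_add_one_of_adj ρ h with h2 | h2
  · exact Or.inr (par_eq hT h h2)
  · exact Or.inl (par_eq hT h.symm h2)

theorem not_both (hT : T.IsTree) {ρ x w : V} (hw : w ≠ ρ) (h1 : par T ρ w = x) (hx : x ≠ ρ)
    (h2 : par T ρ x = w) : False := by
  have h3 := (par_spec hT hw).2
  have h4 := (par_spec hT hx).2
  rw [h1] at h3
  rw [h2] at h4
  omega

end Q227.UB
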