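import Mathlib
import Pool.Agent.Q227.UB.Lab

/-!
# A tree with a suitable labelling is a unit bar visibility tree
-/

set_option autoImplicit false

namespace Q227.UB

open SimpleGraph

variable {V : Type*} {Q : SimpleGraph V}

/-- The graph of the spine edges. -/
def spine (Q : SimpleGraph V) (τ : V → V → Fin 3) (hL : Lab Q τ) : SimpleGraph V where
  Adj x w := Q.Adj x w ∧ τ x w = 0
  symm.symm x w h := ⟨h.1.symm, ((hL x w h.1).1).1 h.2⟩
  loopless.irrefl x h := Q.loopless.irrefl x h.1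

theorem spine_le (Q : SimpleGraph V) (τ : V → V → Fin 3) (hL : Lab Q τ) : spine Q τ hL ≤ Q :=
  fun _ _ h => h.1

theorem leave {τ : V → V → Fin 3} (hL : Lab Q τ)
    (P1 : ∀ x w w', Q.Adj x w → Q.Adj x w' → τ x w = 2 → w ≠ w' → τ x w' = 1) :
    ∀ {b z : V} (p : Q.Walk b z) (a : V) (hab : Q.Adj a b), τ b a = 2 → (Walk.cons hab p).IsPath →
      ∀ w, Q.Adj z w → τ z w ≠ 0 := by
  intro b z p
  induction p with
  | nil =>
    intro a hab h2 _ w hw h0
    by_cases h : a = w
    · rw [← h, h2] at h0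
      exact absurd h0 (by decide)
    · rw [P1 _ a w hab.symm hw h2 h] at h0
      exact absurd h0 (by decide)
  | @cons b c z hbc p ih =>
    intro a hab h2 hp
    have hac : a ≠ c := by
      rintro rfl
      have h3 := (Walk.cons_isPath_iff _ _).1 hp
      apply h3.2
      rw [Walk.support_cons]
      exact List.mem_cons_of_mem _ p.start_mem_support
    have h4 := P1 b a c hab.symm hbc h2 hac
    have h5 : τ c b = 2 := ((hL b c hbc).2).1 h4
    exact ih b hbc h5 ((Walk.cons_isPath_iff _ _).1 hp).1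

theorem spine_reach {τ : V → V → Fin 3} (hL : Lab Q τ)
    (P1 : ∀ x w w', Q.Adj x w → Q.Adj x w' → τ x w = 2 → w ≠ w' → τ x w' = 1) :
    ∀ {x z : V} (p : Q.Walk x z), p.IsPath → (∃ w, Q.Adj x w ∧ τ x w = 0) →
      (∃ w, Q.Adj z w ∧ τ z w = 0) → (spine Q τ hL).Reachable x z := by
  intro x z p
  induction p with
  | nil => exact fun _ _ _ => Reachable.refl _
  | @cons x y z hxy p ih =>
    intro hp hx hz
    have hpp := (Walk.cons_isPath_iff _ _).1 hp
    have h2 : τ x y ≠ 2 := by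
      intro h2
      obtain ⟨w, hw, hw'⟩ := hx
      by_cases h : y = w
      · rw [← h, h2] at hw'
        exact absurd hw' (by decide)
      · rw [P1 x y w hxy hw h2 h] at hw'
        exact absurd hw' (by decide)
    have h1 : τ x y ≠ 1 := by
      intro h1
      have h3 : τ y x = 2 := ((hL x y hxy).2).1 h1
      obtain ⟨w, hw, hw'⟩ := hz
      exact leave hL P1 p x hxy h3 hp w hw hw'
    have h0 : τ x y = 0 := by
      revert h1 h2
      generalize τ x y = a
      fin_cases a <;> simp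
    have h4 : (spine Q τ hL).Adj x y := ⟨hxy, h0⟩
    exact h4.reachable.trans (ih hpp.1 ⟨x, hxy.symm, ((hL x y hxy).1).1 h0⟩ hz)

theorem two_nbrs {H : SimpleGraph V} {u v y : V} (p : H.Walk u v) (hp : p.IsPath)
    (hy : y ∈ p.support) (hu : y ≠ u) (hv : y ≠ v) :
    ∃ a b, a ∈ p.support ∧ b ∈ p.support ∧ H.Adj y a ∧ H.Adj y b ∧ a ≠ b := by
  classical
  have hspec := p.take_spec hy
  have hq : ¬ (p.takeUntil y hy).Nil := by
    intro h
    exact hu h.eq.symm
  have hr : ¬ (p.dropUntil y hy).Nil := by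
    intro h
    exact hv h.eq
  have h1 := Walk.adj_penultimate hq
  have h2 := Walk.adj_snd hr
  have ha : (p.takeUntil y hy).penultimate ∈ (p.takeUntil y hy).support :=
    Walk.getVert_mem_support _ _
  have hb : (p.dropUntil y hy).snd ∈ (p.dropUntil y hy).support := Walk.getVert_mem_support _ _
  refine ⟨_, _, p.support_takeUntil_subset_support hy ha,
    p.support_dropUntil_subset_support hy hb, h1.symm, h2, ?_⟩
  have hpp : ((p.takeUntil y hy).append (p.dropUntil y hy)).IsPath := by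
    rw [hspec]
    exact hp
  exact hpp.ne_of_mem_support_of_append h2.ne.symm ha hb

theorem exists_spine [Finite V] (hQ : Q.IsTree) {τ : V → V → Fin 3} (hL : Lab Q τ)
    (P1 : ∀ x w w', Q.Adj x w → Q.Adj x w' → τ x w = 2 → w ≠ w' → τ x w' = 1)
    (P2 : ∀ x a b c, Q.Adj x a → Q.Adj x b → Q.Adj x c → τ x a = 0 → τ x b = 0 → τ x c = 0 →
      a = b ∨ b = c ∨ a = c) :
    ∃ (u v : V) (p : Q.Walk u v), p.IsPath ∧ ∀ x, (∃ w, Q.Adj x w ∧ τ x w = 0) → x ∈ p.support := by
  classical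
  have hfin := Fintype.ofFinite V
  by_cases hZ : ∃ x w, Q.Adj x w ∧ τ x w = 0
  swap
  · obtain ⟨x⟩ := hQ.connected.nonempty
    refine ⟨x, x, Walk.nil, Walk.IsPath.nil, ?_⟩
    intro y hy
    exact absurd ⟨y, hy⟩ hZ
  obtain ⟨x₀, hx₀⟩ := hZ
  let H := spine Q τ hL
  let N : Set ℕ := {n | ∃ (u v : V) (p : H.Walk u v), p.IsPath ∧ (∃ w, Q.Adj u w ∧ τ u w = 0) ∧
    p.length = n}
  have hN : N.Finite := by
    refine (Set.finite_lt_nat (Fintype.card V)).subset ?_
    rintro n ⟨u, v, p, hp, -, rfl⟩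
    exact hp.length_lt
  have hNe : N.Nonempty := ⟨0, x₀, x₀, Walk.nil, Walk.IsPath.nil, hx₀, rfl⟩
  obtain ⟨n, ⟨u, v, p, hp, hu, hlen⟩, hmax⟩ := hN.exists_maximal hNe
  refine ⟨u, v, p.mapLe (spine_le Q τ hL), hp.mapLe _, ?_⟩
  intro x hx
  rw [Walk.support_mapLe_eq_support]
  by_contra hxp
  obtain ⟨q, hq, -⟩ := hQ.connected.exists_path_of_dist u x
  obtain ⟨r⟩ := spine_reach hL P1 q hq hu hx
  obtain ⟨d, -, hd1, hd2⟩ := r.exists_boundary_dart {y | y ∈ p.support} p.start_mem_support hxp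
  simp only [Set.mem_ofPred_eq] at hd1 hd2
  have hadj : H.Adj d.fst d.snd := d.adj
  by_cases h1 : d.fst = u
  · have hadj' : H.Adj d.snd u := by
      rw [← h1]
      exact hadj.symm
    have h2 : (Walk.cons hadj' p).IsPath := (Walk.cons_isPath_iff _ _).2 ⟨hp, hd2⟩
    have h3 : n + 1 ∈ N := ⟨_, _, _, h2, ⟨u, hadj'.1, hadj'.2⟩, by
      rw [Walk.length_cons, hlen]⟩
    have h4 := hmax h3 (Nat.le_succ n)
    omega
  by_cases h1' : d.fst = v
  · have hadj' : H.Adj v d.snd := by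
      rw [← h1']
      exact hadj
    have h2 : (p.concat hadj').IsPath := hp.concat hd2 hadj'
    have h3 : n + 1 ∈ N := ⟨_, _, _, h2, hu, by
      rw [Walk.length_concat, hlen]⟩
    have h4 := hmax h3 (Nat.le_succ n)
    omega
  obtain ⟨a, b, ha, hb, ha', hb', hab⟩ := two_nbrs p hp hd1 h1 h1'
  rcases P2 d.fst a b d.snd ha'.1 hb'.1 hadj.1 ha'.2 hb'.2 hadj.2 with h | h | h
  · exact hab h
  · rw [h] at hb
    exact hd2 hb
  · rw [h] at ha
    exact hd2 ha

theorem ubvt_of_types [Finite V] (hQ : Q.IsTree) {τ : V → V → Fin 3} (hL : Lab Q τ)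
    (P1 : ∀ x w w', Q.Adj x w → Q.Adj x w' → τ x w = 2 → w ≠ w' → τ x w' = 1)
    (P2 : ∀ x a b c, Q.Adj x a → Q.Adj x b → Q.Adj x c → τ x a = 0 → τ x b = 0 → τ x c = 0 →
      a = b ∨ b = c ∨ a = c)
    (P3 : ∀ x w w', Q.Adj x w → Q.Adj x w' → τ x w = 1 → τ x w' = 1 → w = w') :
    IsUBVT Q := by
  have h0 : ∀ x, cn Q τ x 0 ≤ 2 := by
    intro x
    by_contra h
    push Not at h
    unfold cn at h
    obtain ⟨a, b, c, ha, hb, hc, hab, hac, hbc⟩ := (Set.two_lt_ncard_iff (Set.toFinite _)).1 h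
    rcases P2 x a b c ha.1 hb.1 hc.1 ha.2 hb.2 hc.2 with h | h | h
    · exact hab h
    · exact hbc h
    · exact hac h
  have h1 : ∀ x, cn Q τ x 1 ≤ 1 := by
    intro x
    unfold cn
    rw [Set.ncard_le_one_iff (Set.toFinite _)]
    intro a b ha hb
    exact P3 x a b ha.1 hb.1 ha.2 hb.2
  have h2 : ∀ x, cn Q τ x 2 ≤ 1 := by
    intro x
    unfold cn
    rw [Set.ncard_le_one_iff (Set.toFinite _)]
    intro a b ha hb
    by_contra hab
    have := P1 x a b ha.1 hb.1 ha.2 hab
    rw [hb.2] at this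
    exact absurd this (by decide)
  have h3 : ∀ x, 0 < cn Q τ x 2 → cn Q τ x 0 = 0 := by
    intro x hx
    unfold cn at hx ⊢
    rw [Set.ncard_eq_zero (Set.toFinite _)]
    obtain ⟨a, ha⟩ := (Set.ncard_pos (Set.toFinite _)).1 hx
    ext b
    simp only [Set.mem_ofPred_eq, Set.mem_empty_iff_false, iff_false, not_and]
    intro hb hb'
    by_cases hab : a = b
    · have := ha.2
      rw [hab, hb'] at this
      exact absurd this (by decide)
    · have := P1 x a b ha.1 hb ha.2 hab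
      rw [hb'] at this
      exact absurd this (by decide)
  refine ⟨hQ, ?_, ?_⟩
  · intro x
    rw [← cn_add Q τ x]
    have := h0 x
    have := h1 x
    have := h2 x
    have := h3 x
    by_cases h4 : 0 < cn Q τ x 2
    · have := h3 x h4
      omega
    · omega
  · obtain ⟨u, v, p, hp, hsup⟩ := exists_spine hQ hL P1 P2
    refine ⟨u, v, p, hp, ?_⟩
    intro x hx
    apply hsup
    rw [← cn_add Q τ x] at hx
    have := h0 x
    have := h1 x
    have := h2 x
    have h5 : 0 < cn Q τ x 0 := by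
      by_cases h4 : 0 < cn Q τ x 2
      · have := h3 x h4
        omega
      · omega
    unfold cn at h5
    exact (Set.ncard_pos (Set.toFinite _)).1 h5

end Q227.UB
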