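import Mathlib
import Pool.Agent.Q227.UB.Root
import Pool.Agent.Q227.UB.Grp
import Pool.Agent.Q227.UB.Ubvt

/-!
# From labellings to decompositions
-/

set_option autoImplicit false

namespace Q227.UB

open SimpleGraph

variable {V : Type*} (T : SimpleGraph V) (ρ : V) (G : V → V → ℕ)

open Classical in
/-- The colour of the edge from `v` to its parent, computed with `n` steps. -/
noncomputable def colN : ℕ → V → V × ℕ
  | 0, v => (v, 0)
  | n + 1, v => if par T ρ v ≠ ρ ∧ G (par T ρ v) v = G (par T ρ v) (par T ρ (par T ρ v)) then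
      colN n (par T ρ v) else (par T ρ v, G (par T ρ v) v)

/-- The colour of the edge from `v` to its parent. -/
noncomputable def col (v : V) : V × ℕ := colN T ρ G (T.dist ρ v) v

open Classical in
/-- The colour of the group `j` at `x`. -/
noncomputable def Fc (x : V) (j : ℕ) : V × ℕ :=
  if x ≠ ρ ∧ j = G x (par T ρ x) then col T ρ G x else (x, j)

/-- The colour of the edge `x w`. -/
noncomputable def Ec (x w : V) : V × ℕ := Fc T ρ G x (G x w)

variable {T}

theorem col_eq (hT : T.IsTree) {v : V} (hv : v ≠ ρ) :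
    col T ρ G v = Fc T ρ G (par T ρ v) (G (par T ρ v) v) := by
  have h := (par_spec hT hv).2
  unfold col Fc
  rw [h]
  rfl

theorem Fc_par {v : V} (hv : v ≠ ρ) : Fc T ρ G v (G v (par T ρ v)) = col T ρ G v :=
  if_pos ⟨hv, rfl⟩

theorem Ec_child (hT : T.IsTree) {v : V} (hv : v ≠ ρ) :
    Ec T ρ G (par T ρ v) v = col T ρ G v := (col_eq ρ G hT hv).symm

theorem Ec_par {v : V} (hv : v ≠ ρ) : Ec T ρ G v (par T ρ v) = col T ρ G v := Fc_par ρ G hv

theorem Ec_symm (hT : T.IsTree) {x w : V} (h : T.Adj x w) : Ec T ρ G x w = Ec T ρ G w x := by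
  rcases adj_cases hT ρ h with ⟨h1, rfl⟩ | ⟨h1, rfl⟩
  · rw [Ec_child ρ G hT h1, Ec_par ρ G h1]
  · rw [Ec_child ρ G hT h1, Ec_par ρ G h1]

theorem col_depth (hT : T.IsTree) : ∀ (n : ℕ) (v : V), T.dist ρ v = n → v ≠ ρ →
    T.dist ρ (col T ρ G v).1 < n := by
  intro n
  induction n with
  | zero =>
    intro v hd hv
    have := (par_spec hT hv).2
    omega
  | succ n ih =>
    intro v hd hv
    have h1 := (par_spec hT hv).2
    rw [col_eq ρ G hT hv]
    unfold Fc
    split_ifs with h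
    · have := ih (par T ρ v) (by omega) h.1
      omega
    · change T.dist ρ (par T ρ v) < n + 1
      omega

theorem Fc_inj (hT : T.IsTree) {x : V} {j j' : ℕ} (h : Fc T ρ G x j = Fc T ρ G x j') :
    j = j' := by
  have h1 : x ≠ ρ → (col T ρ G x).1 ≠ x := by
    intro hx he
    have := col_depth ρ G hT _ x rfl hx
    rw [he] at this
    omega
  unfold Fc at h
  split_ifs at h with h2 h3 h3
  · exact h2.2.trans h3.2.symm
  · exact absurd (congrArg Prod.fst h) (h1 h2.1)
  · exact absurd (congrArg Prod.fst h).symm (h1 h3.1)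
  · exact congrArg Prod.snd h

variable (L : V → ℕ)

/-- The colours. -/
def IsCol (T : SimpleGraph V) (c : V × ℕ) : Prop :=
  c.2 < L c.1 ∧ (c.1 = ρ ∨ c.2 ≠ G c.1 (par T ρ c.1))

theorem Fc_mem (hT : T.IsTree) (hG : ∀ x w, T.Adj x w → G x w < L x) :
    ∀ (n : ℕ) (x : V) (j : ℕ), T.dist ρ x = n → j < L x → IsCol ρ G L T (Fc T ρ G x j) := by
  intro n
  induction n with
  | zero =>
    intro x j hd hj
    have hx : x = ρ := by
      by_contra hx
      have := (par_spec hT hx).2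
      omega
    unfold Fc
    rw [if_neg (fun h => h.1 hx)]
    exact ⟨hj, Or.inl hx⟩
  | succ n ih =>
    intro x j hd hj
    unfold Fc
    split_ifs with h
    · have h1 := par_spec hT h.1
      rw [col_eq ρ G hT h.1]
      exact ih _ _ (by omega) (hG _ _ h1.1.symm)
    · refine ⟨hj, ?_⟩
      change x = ρ ∨ j ≠ G x (par T ρ x)
      tauto

/-- The piece of the colour `c`. -/
noncomputable def piece (hT : T.IsTree) (c : V × ℕ) : T.Subgraph where
  verts := {x | ∃ w, T.Adj x w ∧ Ec T ρ G x w = c}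
  Adj x w := T.Adj x w ∧ Ec T ρ G x w = c
  adj_sub h := h.1
  edge_vert h := ⟨_, h⟩
  symm.symm x w h := ⟨h.1.symm, by rw [← Ec_symm ρ G hT h.1]; exact h.2⟩

theorem piece_up (hT : T.IsTree) (c : V × ℕ) (hc : c.1 ∈ (piece ρ G hT c).verts) :
    ∀ (n : ℕ) (v : V), T.dist ρ v = n → v ≠ ρ → col T ρ G v = c →
      ∀ hv : v ∈ (piece ρ G hT c).verts, (piece ρ G hT c).coe.Reachable ⟨v, hv⟩ ⟨c.1, hc⟩ := by
  intro n
  induction n with
  | zero =>
    intro v hd hv
    have := (par_spec hT hv).2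
    omega
  | succ n ih =>
    intro v hd hv hcol hvm
    have h1 := par_spec hT hv
    have hadj : (piece ρ G hT c).Adj v (par T ρ v) := ⟨h1.1, by rw [Ec_par ρ G hv, hcol]⟩
    have h2 : (piece ρ G hT c).coe.Adj ⟨v, hvm⟩ ⟨par T ρ v, hadj.snd_mem⟩ := hadj
    refine h2.reachable.trans ?_
    have h3 := hcol
    rw [col_eq ρ G hT hv] at h3
    unfold Fc at h3
    split_ifs at h3 with h
    · exact ih _ (by omega) h.1 h3 _
    · have h4 : c.1 = par T ρ v := by rw [← h3]
      have h5 : (⟨par T ρ v, hadj.snd_mem⟩ : (piece ρ G hT c).verts) = ⟨c.1, hc⟩ :=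
        Subtype.ext h4.symm
      rw [h5]

theorem piece_tree (hT : T.IsTree) (c : V × ℕ) (hc : c.1 ∈ (piece ρ G hT c).verts) :
    (piece ρ G hT c).coe.IsTree := by
  have hreach : ∀ x : (piece ρ G hT c).verts, (piece ρ G hT c).coe.Reachable x ⟨c.1, hc⟩ := by
    rintro ⟨x, hx⟩
    obtain ⟨w, hxw, he⟩ := hx
    have hadj : (piece ρ G hT c).Adj x w := ⟨hxw, he⟩
    rcases adj_cases hT ρ hxw with ⟨h1, h2⟩ | ⟨h1, h2⟩
    · have h3 : (piece ρ G hT c).coe.Adj ⟨x, hadj.fst_mem⟩ ⟨w, hadj.snd_mem⟩ := hadj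
      refine h3.reachable.trans (piece_up ρ G hT c hc _ w rfl h1 ?_ _)
      rw [← he, ← Ec_child ρ G hT h1, h2]
    · refine piece_up ρ G hT c hc _ x rfl h1 ?_ _
      rw [← he, ← Ec_par ρ G h1, h2]
  haveI : Nonempty (piece ρ G hT c).verts := ⟨⟨c.1, hc⟩⟩
  exact ⟨⟨fun x y => (hreach x).trans (hreach y).symm⟩, hT.isAcyclic.subgraph _⟩

end Q227.UB
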