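import Mathlib
import Pool.Agent.Q227.UB.CombB
import Pool.Agent.Q227.UB.Cnt

/-!
# From labellings to decompositions: the theorem
-/

set_option autoImplicit false

namespace Q227.UB

open Finset Classical

theorem good_decomp {V : Type*} [Finite V] {T : SimpleGraph V} (hT : T.IsTree) {k q : ℕ}
    (h : Good T k q) : ∃ ℓ, 2 * ℓ = q ∧ Decomposes T k ℓ := by
  have hfin : Fintype V := Fintype.ofFinite V
  obtain ⟨τ, hL, hloc, rfl⟩ := h
  choose G g1 g2 g3 g4 g5 using fun x => local_grouping T τ x (hloc x).1
  obtain ⟨ρ⟩ := hT.connected.nonempty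
  -- the colours
  let S : V → Finset ℕ := fun u =>
    (range (load T τ u)).filter fun j => u = ρ ∨ j ≠ G u (par T ρ u)
  let C : Finset (V × ℕ) := univ.biUnion fun u => (S u).image fun j => (u, j)
  have hC : ∀ c, c ∈ C ↔ IsCol ρ G (load T τ) T c := by
    rintro ⟨u, j⟩
    simp only [C, S, mem_biUnion, mem_univ, true_and, mem_image, mem_filter, mem_range,
      Prod.mk.injEq, IsCol]
    constructor
    · rintro ⟨u', j', ⟨h1, h2⟩, rfl, rfl⟩
      exact ⟨h1, h2⟩
    · rintro ⟨h1, h2⟩
      exact ⟨u, j, ⟨h1, h2⟩, rfl, rfl⟩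
  have hS : ∀ u, (S u).card + (if u = ρ then 0 else 1) = load T τ u := by
    intro u
    by_cases hu : u = ρ
    · rw [if_pos hu, add_zero]
      simp only [S, hu, true_or, filter_true, card_range]
    · rw [if_neg hu]
      have h1 : S u = (range (load T τ u)).erase (G u (par T ρ u)) := by
        ext j
        simp only [S, hu, false_or, mem_filter, mem_erase]
        exact and_comm
      have h2 : G u (par T ρ u) ∈ range (load T τ u) :=
        mem_range.2 (g1 u _ (par_spec hT hu).1)
      rw [h1, card_erase_of_mem h2, card_range]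
      have h3 := mem_range.1 h2
      omega
  have hcard : C.card + Fintype.card V = ∑ u, load T τ u + 1 := by
    have h1 : C.card = ∑ u, (S u).card := by
      rw [card_biUnion]
      · refine sum_congr rfl fun u _ => card_image_of_injective _ ?_
        intro a b hab
        exact congrArg Prod.snd hab
      · intro u _ u' _ hne
        change Disjoint _ _
        rw [Finset.disjoint_left]
        rintro ⟨a, b⟩ ha hb
        simp only [mem_image, Prod.mk.injEq] at ha hb
        obtain ⟨_, _, rfl, _⟩ := ha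
        obtain ⟨_, _, rfl, _⟩ := hb
        exact hne rfl
    have h2 : ∑ u, ((S u).card + (if u = ρ then 0 else 1)) = ∑ u, load T τ u :=
      sum_congr rfl fun u _ => hS u
    rw [sum_add_distrib, ← h1] at h2
    have h3 : ∑ u : V, (if u = ρ then 0 else 1) + 1 = Fintype.card V := by
      have h4 : ∑ u : V, ((if u = ρ then 0 else 1) + (if u = ρ then 1 else 0)) =
          Fintype.card V := by
        rw [sum_congr rfl fun u _ => (by split_ifs <;> rfl :
          ((if u = ρ then 0 else 1) + (if u = ρ then 1 else 0)) = 1), sum_const, card_univ,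
          smul_eq_mul, mul_one]
      rw [sum_add_distrib] at h4
      rw [← h4]
      congr 1
      rw [sum_ite_eq' univ ρ, if_pos (mem_univ _)]
    omega
  have hsum := sum_load hT hL
  have key : ∀ c ∈ C, (piece ρ G hT c).edgeSet.Nonempty ∧ IsUBVT (piece ρ G hT c).coe := by
    intro c hc
    have hc' := (hC c).1 hc
    obtain ⟨w, hw, hw'⟩ := g2 c.1 c.2 hc'.1
    have hE : Ec T ρ G c.1 w = c := by
      unfold Ec Fc
      rw [hw', if_neg]
      rintro ⟨h1, h2⟩
      rcases hc'.2 with h3 | h3
      · exact h1 h3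
      · exact h3 h2
    have hadj : (piece ρ G hT c).Adj c.1 w := ⟨hw, hE⟩
    have htree := piece_tree ρ G hT c hadj.fst_mem
    refine ⟨⟨s(c.1, w), hadj⟩, ?_⟩
    have hG : ∀ x w w' : (piece ρ G hT c).verts, (piece ρ G hT c).coe.Adj x w →
        (piece ρ G hT c).coe.Adj x w' → G x.1 w.1 = G x.1 w'.1 := by
      intro x w w' h1 h2
      have h3 : Ec T ρ G x.1 w.1 = c := h1.2
      have h4 : Ec T ρ G x.1 w'.1 = c := h2.2
      exact Fc_inj ρ G hT (h3.trans h4.symm)
    have hA : ∀ x w : (piece ρ G hT c).verts, (piece ρ G hT c).coe.Adj x w → T.Adj x.1 w.1 :=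
      fun x w h => h.1
    refine ubvt_of_types (τ := fun x w => τ x.1 w.1) htree ?_ ?_ ?_ ?_
    · intro x w h1
      exact hL x.1 w.1 (hA x w h1)
    · intro x w w' h1 h2 h3 hne
      exact g3 x.1 w.1 w'.1 (hA _ _ h1) (hA _ _ h2) (hG x w w' h1 h2) h3
        (fun h => hne (Subtype.ext h))
    · intro x a b d h1 h2 h3 h4 h5 h6
      have := g5 x.1 a.1 b.1 d.1 (hA _ _ h1) (hA _ _ h2) (hA _ _ h3) (hG x a b h1 h2)
        (hG x b d h2 h3) h4 h5 h6
      rcases this with h | h | h
      · exact Or.inl (Subtype.ext h)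
      · exact Or.inr (Or.inl (Subtype.ext h))
      · exact Or.inr (Or.inr (Subtype.ext h))
    · intro x w w' h1 h2 h3 h4
      exact Subtype.ext (g4 x.1 w.1 w'.1 (hA _ _ h1) (hA _ _ h2) (hG x w w' h1 h2) h3 h4)
  refine ⟨C.card, by omega, fun i => piece ρ G hT (C.equivFin.symm i).1,
    fun i => key _ (C.equivFin.symm i).2, ?_, ?_⟩
  · intro e he
    induction e using Sym2.ind with
    | _ x w =>
      have hxw : T.Adj x w := he
      have hmem : Ec T ρ G x w ∈ C :=
        (hC _).2 (Fc_mem ρ G (load T τ) hT g1 _ x _ rfl (g1 x w hxw))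
      refine ⟨C.equivFin ⟨_, hmem⟩, ?_, ?_⟩
      · change (piece ρ G hT _).Adj x w
        rw [Equiv.symm_apply_apply]
        exact ⟨hxw, rfl⟩
      · intro i hi
        have hi' : (piece ρ G hT (C.equivFin.symm i).1).Adj x w := hi
        have h1 : Ec T ρ G x w = (C.equivFin.symm i).1 := hi'.2
        apply C.equivFin.symm.injective
        rw [Equiv.symm_apply_apply]
        exact Subtype.ext h1.symm
  · intro v
    have h1 : {i | v ∈ (piece ρ G hT (C.equivFin.symm i).1).verts}.ncard ≤
        (((range (load T τ v)).image (Fc T ρ G v) : Finset (V × ℕ)) : Set (V × ℕ)).ncard := by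
      refine Set.ncard_le_ncard_of_injOn (fun i => (C.equivFin.symm i).1) ?_ ?_ (Set.toFinite _)
      · intro i hi
        obtain ⟨w, hw, hw'⟩ := hi
        simp only [coe_image, Set.mem_image, mem_coe, mem_range]
        exact ⟨G v w, g1 v w hw, hw'⟩
      · intro i _ j _ hij
        exact C.equivFin.symm.injective (Subtype.ext hij)
    refine h1.trans ?_
    rw [Set.ncard_coe_finset]
    refine card_image_le.trans ?_
    rw [card_range]
    exact (hloc v).2

end Q227.UB
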