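import Mathlib
import Pool.Agent.Q227.UB.Root

/-!
# Descendants in rooted trees, and the states of the dynamic program
-/

set_option autoImplicit false

namespace Q227.UB

open Finset Classical

variable {V : Type*} {T : SimpleGraph V} {ρ : V}

/-- `x` is a descendant of `w`. -/
def desc (T : SimpleGraph V) (ρ w x : V) : Prop :=
  ∃ m, (par T ρ)^[m] x = w ∧ T.dist ρ x = T.dist ρ w + m

theorem desc_self (w : V) : desc T ρ w w := ⟨0, rfl, rfl⟩

theorem desc_dist {w x : V} (h : desc T ρ w x) : T.dist ρ w ≤ T.dist ρ x := by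
  obtain ⟨m, -, hm⟩ := h
  omega

theorem desc_child (hT : T.IsTree) {w x y : V} (h : desc T ρ w x) (hy : y ≠ ρ)
    (hp : par T ρ y = x) : desc T ρ w y := by
  obtain ⟨m, h1, h2⟩ := h
  refine ⟨m + 1, ?_, ?_⟩
  · rw [Function.iterate_succ_apply, hp, h1]
  · have := (par_spec hT hy).2
    rw [hp] at this
    omega

theorem desc_par (hT : T.IsTree) {w x : V} (h : desc T ρ w x) (hne : x ≠ w) :
    x ≠ ρ ∧ desc T ρ w (par T ρ x) := by
  obtain ⟨m, h1, h2⟩ := h
  cases m with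
  | zero => exact absurd h1 hne
  | succ m =>
    have hx : x ≠ ρ := by
      rintro rfl
      rw [SimpleGraph.dist_self] at h2
      omega
    refine ⟨hx, m, ?_, ?_⟩
    · rw [Function.iterate_succ_apply] at h1
      exact h1
    · have := (par_spec hT hx).2
      omega

theorem desc_unique {w w' x : V} (h : desc T ρ w x) (h' : desc T ρ w' x)
    (hd : T.dist ρ w = T.dist ρ w') : w = w' := by
  obtain ⟨m, h1, h2⟩ := h
  obtain ⟨m', h1', h2'⟩ := h'
  have : m = m' := by omega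
  subst this
  rw [← h1, ← h1']

theorem desc_cases (hT : T.IsTree) {v x : V} (h : desc T ρ v x) :
    x = v ∨ ∃ w, w ≠ ρ ∧ par T ρ w = v ∧ desc T ρ w x := by
  obtain ⟨m, h1, h2⟩ := h
  induction m generalizing x with
  | zero => exact Or.inl h1
  | succ m ih =>
    have hx : x ≠ ρ := by
      rintro rfl
      rw [SimpleGraph.dist_self] at h2
      omega
    have h3 := (par_spec hT hx).2
    rw [Function.iterate_succ_apply] at h1
    rcases ih h1 (by omega) with h4 | ⟨w, hw1, hw2, hw3⟩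
    · exact Or.inr ⟨x, hx, h4, desc_self x⟩
    · exact Or.inr ⟨w, hw1, hw2, desc_child hT hw3 hx rfl⟩

theorem child_dist (hT : T.IsTree) {v w : V} (hw : w ≠ ρ) (hp : par T ρ w = v) :
    T.dist ρ w = T.dist ρ v + 1 := by
  have := (par_spec hT hw).2
  rw [hp] at this
  exact this

/-! ### Indexed children -/

variable [Fintype V] (T ρ) (ix : V → ℕ)

/-- The children of `v` with index below `i` and label `j`. -/
noncomputable def chs (f : V → Fin 3) (i : ℕ) (v : V) (j : Fin 3) : Finset V :=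
  univ.filter fun w => w ≠ ρ ∧ par T ρ w = v ∧ ix w < i ∧ f w = j

/-- The descendants of the children of `v` with index below `i`. -/
noncomputable def dsc (i : ℕ) (v : V) : Finset V :=
  univ.filter fun x => ∃ w, w ≠ ρ ∧ par T ρ w = v ∧ ix w < i ∧ desc T ρ w x

variable {T ρ ix}

theorem mem_chs {f : V → Fin 3} {i : ℕ} {v w : V} {j : Fin 3} :
    w ∈ chs T ρ ix f i v j ↔ w ≠ ρ ∧ par T ρ w = v ∧ ix w < i ∧ f w = j := by
  unfold chs
  rw [mem_filter]
  exact ⟨fun h => h.2, fun h => ⟨mem_univ _, h⟩⟩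

theorem mem_dsc {i : ℕ} {v x : V} :
    x ∈ dsc T ρ ix i v ↔ ∃ w, w ≠ ρ ∧ par T ρ w = v ∧ ix w < i ∧ desc T ρ w x := by
  unfold dsc
  rw [mem_filter]
  exact ⟨fun h => h.2, fun h => ⟨mem_univ _, h⟩⟩

theorem dsc_ne (hT : T.IsTree) {i : ℕ} {v x : V} (h : x ∈ dsc T ρ ix i v) :
    x ≠ ρ ∧ T.dist ρ v < T.dist ρ x := by
  obtain ⟨w, hw, hp, -, hd⟩ := mem_dsc.1 h
  have h1 := child_dist hT hw hp
  have h2 := desc_dist hd
  refine ⟨?_, by omega⟩
  rintro rfl
  rw [SimpleGraph.dist_self] at h2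
  omega

theorem dsc_child (hT : T.IsTree) {i : ℕ} {v x y : V} (h : x ∈ dsc T ρ ix i v) (hy : y ≠ ρ)
    (hp : par T ρ y = x) : y ∈ dsc T ρ ix i v := by
  obtain ⟨w, hw, hp', hi, hd⟩ := mem_dsc.1 h
  exact mem_dsc.2 ⟨w, hw, hp', hi, desc_child hT hd hy hp⟩

theorem child_mem_dsc {i : ℕ} {v w : V} (hw : w ≠ ρ) (hp : par T ρ w = v) (hi : ix w < i) :
    w ∈ dsc T ρ ix i v := mem_dsc.2 ⟨w, hw, hp, hi, desc_self w⟩

/-- The proper descendants. -/
theorem mem_dsc_full (hT : T.IsTree) {n : ℕ} (hn : ∀ w, ix w < n) {v x : V} :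
    x ∈ dsc T ρ ix n v ↔ desc T ρ v x ∧ x ≠ v := by
  rw [mem_dsc]
  constructor
  · rintro ⟨w, hw, hp, -, hd⟩
    have h1 := child_dist hT hw hp
    have h2 := desc_dist hd
    refine ⟨?_, ?_⟩
    · obtain ⟨m, hm1, hm2⟩ := hd
      refine ⟨m + 1, ?_, by omega⟩
      rw [Function.iterate_succ_apply', hm1, hp]
    · rintro rfl
      omega
  · rintro ⟨hd, hne⟩
    rcases desc_cases hT hd with h | ⟨w, hw1, hw2, hw3⟩
    · exact absurd h hne
    · exact ⟨w, hw1, hw2, hn w, hw3⟩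

/-- No child has the index `i`. -/
theorem chs_skip {f : V → Fin 3} {i : ℕ} {v : V} {j : Fin 3}
    (h : ∀ w, ix w = i → ¬ (w ≠ ρ ∧ par T ρ w = v)) :
    chs T ρ ix f (i + 1) v j = chs T ρ ix f i v j := by
  ext w
  rw [mem_chs, mem_chs]
  constructor
  · rintro ⟨h1, h2, h3, h4⟩
    refine ⟨h1, h2, ?_, h4⟩
    have : ix w ≠ i := fun h' => h w h' ⟨h1, h2⟩
    omega
  · rintro ⟨h1, h2, h3, h4⟩
    exact ⟨h1, h2, by omega, h4⟩

theorem dsc_skip {i : ℕ} {v : V} (h : ∀ w, ix w = i → ¬ (w ≠ ρ ∧ par T ρ w = v)) :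
    dsc T ρ ix (i + 1) v = dsc T ρ ix i v := by
  ext x
  rw [mem_dsc, mem_dsc]
  constructor
  · rintro ⟨w, h1, h2, h3, h4⟩
    refine ⟨w, h1, h2, ?_, h4⟩
    have : ix w ≠ i := fun h' => h w h' ⟨h1, h2⟩
    omega
  · rintro ⟨w, h1, h2, h3, h4⟩
    exact ⟨w, h1, h2, by omega, h4⟩

theorem card_chs_take {f : V → Fin 3} (hix : Function.Injective ix) {v w : V} (hw : w ≠ ρ)
    (hp : par T ρ w = v) (j : Fin 3) :
    (chs T ρ ix f (ix w + 1) v j).card =
      (chs T ρ ix f (ix w) v j).card + if f w = j then 1 else 0 := by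
  by_cases hj : f w = j
  · rw [if_pos hj]
    have h1 : chs T ρ ix f (ix w + 1) v j = insert w (chs T ρ ix f (ix w) v j) := by
      ext y
      rw [mem_insert, mem_chs, mem_chs]
      constructor
      · rintro ⟨h1, h2, h3, h4⟩
        by_cases hy : y = w
        · exact Or.inl hy
        · right
          refine ⟨h1, h2, ?_, h4⟩
          have : ix y ≠ ix w := fun h => hy (hix h)
          omega
      · rintro (rfl | ⟨h1, h2, h3, h4⟩)
        · exact ⟨hw, hp, by omega, hj⟩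
        · exact ⟨h1, h2, by omega, h4⟩
    rw [h1, card_insert_of_notMem]
    rw [mem_chs]
    rintro ⟨-, -, h3, -⟩
    omega
  · rw [if_neg hj, add_zero]
    congr 1
    ext y
    rw [mem_chs, mem_chs]
    constructor
    · rintro ⟨h1, h2, h3, h4⟩
      refine ⟨h1, h2, ?_, h4⟩
      have : ix y ≠ ix w := by
        intro h
        rw [hix h] at h4
        exact hj h4
      omega
    · rintro ⟨h1, h2, h3, h4⟩
      exact ⟨h1, h2, by omega, h4⟩

theorem dsc_take (hT : T.IsTree) (hix : Function.Injective ix) {n : ℕ} (hn : ∀ w, ix w < n)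
    {v w : V} (hw : w ≠ ρ) (hp : par T ρ w = v) :
    dsc T ρ ix (ix w + 1) v = dsc T ρ ix (ix w) v ∪ insert w (dsc T ρ ix n w) := by
  ext x
  rw [mem_union, mem_insert, mem_dsc_full hT hn, mem_dsc, mem_dsc]
  constructor
  · rintro ⟨y, h1, h2, h3, h4⟩
    by_cases hy : y = w
    · subst hy
      by_cases hx : x = y
      · exact Or.inr (Or.inl hx)
      · exact Or.inr (Or.inr ⟨h4, hx⟩)
    · left
      refine ⟨y, h1, h2, ?_, h4⟩
      have : ix y ≠ ix w := fun h => hy (hix h)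
      omega
  · rintro (⟨y, h1, h2, h3, h4⟩ | rfl | ⟨h1, h2⟩)
    · exact ⟨y, h1, h2, by omega, h4⟩
    · exact ⟨x, hw, hp, by omega, desc_self x⟩
    · exact ⟨w, hw, hp, by omega, h1⟩

theorem not_desc_of_mem (hT : T.IsTree) {v w x : V} (hw : w ≠ ρ) (hp : par T ρ w = v)
    (hx : x ∈ dsc T ρ ix (ix w) v) : ¬ desc T ρ w x := by
  intro hd
  obtain ⟨y, h1, h2, h3, h4⟩ := mem_dsc.1 hx
  have h5 := child_dist hT hw hp
  have h6 := child_dist hT h1 h2
  have h7 := desc_unique hd h4 (by omega)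
  rw [h7] at h3
  exact absurd h3 (lt_irrefl _)

theorem dsc_disj (hT : T.IsTree) {n : ℕ} (hn : ∀ w, ix w < n)
    {v w : V} (hw : w ≠ ρ) (hp : par T ρ w = v) :
    Disjoint (dsc T ρ ix (ix w) v) (insert w (dsc T ρ ix n w)) := by
  rw [Finset.disjoint_left]
  intro x hx hx'
  apply not_desc_of_mem hT hw hp hx
  rw [mem_insert, mem_dsc_full hT hn] at hx'
  rcases hx' with rfl | h
  · exact desc_self x
  · exact h.1

end Q227.UB
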