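import Mathlib
import Pool.Agent.Q227.UB.Desc
import Pool.Agent.Q227.UB.Lab

/-!
# The states of the dynamic program
-/

set_option autoImplicit false

namespace Q227.UB

open Finset Classical

/-- The local condition for the numbers of the incident labels. -/
def LocN (k a b c : ℕ) : Prop := b ≤ c + a / 2 ∧ c + (a + 1) / 2 ≤ k

/-- The indicator of `l = j`. -/
def ind (l j : Fin 3) : ℕ := if l = j then 1 else 0

variable {V : Type*} [Fintype V] (T : SimpleGraph V) (ρ : V) (ix : V → ℕ) (n k : ℕ)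

/-- The local condition at `x ≠ ρ`. -/
def Ok (f : V → Fin 3) (x : V) : Prop :=
  LocN k ((chs T ρ ix f n x 0).card + ind (f x) 0) ((chs T ρ ix f n x 1).card + ind (f x) 2)
    ((chs T ρ ix f n x 2).card + ind (f x) 1)

/-- The parity of the number of the spine edges at `x ≠ ρ`. -/
noncomputable def od (f : V → Fin 3) (x : V) : ℕ :=
  ((chs T ρ ix f n x 0).card + ind (f x) 0) % 2

/-- The labelling `f` realizes the state. -/
structure St (f : V → Fin 3) (i : ℕ) (v : V) (a b c q : ℕ) : Prop where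
  ha : (chs T ρ ix f i v 0).card = a
  hb : (chs T ρ ix f i v 1).card = b
  hc : (chs T ρ ix f i v 2).card = c
  ok : ∀ x ∈ dsc T ρ ix i v, Ok T ρ ix n k f x
  hq : ∑ x ∈ dsc T ρ ix i v, od T ρ ix n f x = q

variable {T ρ ix n k}

theorem chs_congr {f g : V → Fin 3} {i : ℕ} {v : V} (h : ∀ x ∈ dsc T ρ ix i v, f x = g x)
    (j : Fin 3) : chs T ρ ix f i v j = chs T ρ ix g i v j := by
  ext w
  rw [mem_chs, mem_chs]
  constructor
  · rintro ⟨h1, h2, h3, h4⟩
    exact ⟨h1, h2, h3, by rw [← h w (child_mem_dsc h1 h2 h3)]; exact h4⟩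
  · rintro ⟨h1, h2, h3, h4⟩
    exact ⟨h1, h2, h3, by rw [h w (child_mem_dsc h1 h2 h3)]; exact h4⟩

theorem chs_congr' (hT : T.IsTree) {f g : V → Fin 3} {i : ℕ} {v : V}
    (h : ∀ x ∈ dsc T ρ ix i v, f x = g x) {x : V} (hx : x ∈ dsc T ρ ix i v) (j : Fin 3) :
    chs T ρ ix f n x j = chs T ρ ix g n x j := by
  ext w
  rw [mem_chs, mem_chs]
  constructor
  · rintro ⟨h1, h2, h3, h4⟩
    exact ⟨h1, h2, h3, by rw [← h w (dsc_child hT hx h1 h2)]; exact h4⟩
  · rintro ⟨h1, h2, h3, h4⟩
    exact ⟨h1, h2, h3, by rw [h w (dsc_child hT hx h1 h2)]; exact h4⟩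

theorem St.congr (hT : T.IsTree) {f g : V → Fin 3} {i : ℕ} {v : V} {a b c q : ℕ}
    (h : ∀ x ∈ dsc T ρ ix i v, f x = g x) (hf : St T ρ ix n k f i v a b c q) :
    St T ρ ix n k g i v a b c q := by
  refine ⟨?_, ?_, ?_, ?_, ?_⟩
  · rw [← chs_congr h]; exact hf.ha
  · rw [← chs_congr h]; exact hf.hb
  · rw [← chs_congr h]; exact hf.hc
  · intro x hx
    have h1 := hf.ok x hx
    unfold Ok at h1 ⊢
    rw [← chs_congr' hT h hx, ← chs_congr' hT h hx, ← chs_congr' hT h hx, ← h x hx]
    exact h1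
  · rw [← hf.hq]
    refine sum_congr rfl fun x hx => ?_
    unfold od
    rw [← chs_congr' hT h hx, ← h x hx]

theorem sum_take (hT : T.IsTree) (hix : Function.Injective ix) (hn : ∀ w, ix w < n)
    {v w : V} (hw : w ≠ ρ) (hp : par T ρ w = v) (f : V → Fin 3) :
    ∑ x ∈ dsc T ρ ix (ix w + 1) v, od T ρ ix n f x =
      ∑ x ∈ dsc T ρ ix (ix w) v, od T ρ ix n f x + ∑ x ∈ dsc T ρ ix n w, od T ρ ix n f x +
        ((chs T ρ ix f n w 0).card + ind (f w) 0) % 2 := by
  rw [dsc_take hT hix hn hw hp, sum_union (dsc_disj hT hn hw hp), sum_insert]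
  · unfold od
    ring
  · intro h
    exact ((mem_dsc_full hT hn).1 h).2 rfl

theorem St.take (hT : T.IsTree) (hix : Function.Injective ix) (hn : ∀ w, ix w < n)
    {v w : V} (hw : w ≠ ρ) (hp : par T ρ w = v) {f : V → Fin 3} {a b c q a' b' c' q' : ℕ}
    (h1 : St T ρ ix n k f (ix w) v a b c q) (h2 : St T ρ ix n k f n w a' b' c' q')
    (h3 : LocN k (a' + ind (f w) 0) (b' + ind (f w) 2) (c' + ind (f w) 1)) :
    St T ρ ix n k f (ix w + 1) v (a + ind (f w) 0) (b + ind (f w) 1) (c + ind (f w) 2)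
      (q + q' + (a' + ind (f w) 0) % 2) := by
  refine ⟨?_, ?_, ?_, ?_, ?_⟩
  · rw [card_chs_take hix hw hp, h1.ha]
    rfl
  · rw [card_chs_take hix hw hp, h1.hb]
    rfl
  · rw [card_chs_take hix hw hp, h1.hc]
    rfl
  · intro x hx
    rw [dsc_take hT hix hn hw hp, mem_union, mem_insert] at hx
    rcases hx with hx | rfl | hx
    · exact h1.ok x hx
    · unfold Ok
      rw [h2.ha, h2.hb, h2.hc]
      exact h3
    · exact h2.ok x hx
  · rw [sum_take hT hix hn hw hp, h1.hq, h2.hq, h2.ha]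

/-- Gluing. -/
theorem St.glue (hT : T.IsTree) (hix : Function.Injective ix) (hn : ∀ w, ix w < n)
    {v w : V} (hw : w ≠ ρ) (hp : par T ρ w = v) {f g : V → Fin 3} {a b c q a' b' c' q' : ℕ}
    (h1 : St T ρ ix n k f (ix w) v a b c q) (h2 : St T ρ ix n k g n w a' b' c' q') (l : Fin 3)
    (h3 : LocN k (a' + ind l 0) (b' + ind l 2) (c' + ind l 1)) :
    ∃ f', St T ρ ix n k f' (ix w + 1) v (a + ind l 0) (b + ind l 1) (c + ind l 2)
      (q + q' + (a' + ind l 0) % 2) := by
  let f' : V → Fin 3 := fun x => if desc T ρ w x then (if x = w then l else g x) else f x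
  have e1 : ∀ x ∈ dsc T ρ ix (ix w) v, f x = f' x := by
    intro x hx
    change _ = if desc T ρ w x then (if x = w then l else g x) else f x
    rw [if_neg (not_desc_of_mem hT hw hp hx)]
  have e2 : ∀ x ∈ dsc T ρ ix n w, g x = f' x := by
    intro x hx
    have h4 := (mem_dsc_full hT hn).1 hx
    change _ = if desc T ρ w x then (if x = w then l else g x) else f x
    rw [if_pos h4.1, if_neg h4.2]
  have e3 : f' w = l := by
    change (if desc T ρ w w then (if w = w then l else g w) else f w) = l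
    rw [if_pos (desc_self w), if_pos rfl]
  have h4 := (h1.congr hT e1).take hT hix hn hw hp (h2.congr hT e2) (by rw [e3]; exact h3)
  rw [e3] at h4
  exact ⟨f', h4⟩

theorem St.base (hT : T.IsTree) (f : V → Fin 3) (v : V) : St T ρ ix n k f 0 v 0 0 0 0 := by
  have h1 : ∀ j, chs T ρ ix f 0 v j = ∅ := by
    intro j
    ext w
    rw [mem_chs]
    simp
  have h2 : dsc T ρ ix 0 v = ∅ := by
    ext x
    rw [mem_dsc]
    simp
  refine ⟨?_, ?_, ?_, ?_, ?_⟩
  · rw [h1, card_empty]
  · rw [h1, card_empty]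
  · rw [h1, card_empty]
  · intro x hx
    rw [h2] at hx
    exact absurd hx (notMem_empty x)
  · rw [h2, sum_empty]

theorem St.skip {f : V → Fin 3} {i : ℕ} {v : V} {a b c q : ℕ}
    (h : ∀ w, ix w = i → ¬ (w ≠ ρ ∧ par T ρ w = v)) (hf : St T ρ ix n k f i v a b c q) :
    St T ρ ix n k f (i + 1) v a b c q := by
  refine ⟨?_, ?_, ?_, ?_, ?_⟩
  · rw [chs_skip h]; exact hf.ha
  · rw [chs_skip h]; exact hf.hb
  · rw [chs_skip h]; exact hf.hc
  · rw [dsc_skip h]; exact hf.ok
  · rw [dsc_skip h]; exact hf.hq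

/-! ### The whole tree -/

/-- The label at the other end. -/
def fl (l : Fin 3) : Fin 3 := ![0, 2, 1] l

theorem fl_zero (l : Fin 3) : fl l = 0 ↔ l = 0 := by revert l; decide
theorem fl_one (l : Fin 3) : fl l = 1 ↔ l = 2 := by revert l; decide
theorem fl_two (l : Fin 3) : fl l = 2 ↔ l = 1 := by revert l; decide

theorem cn_chs (hT : T.IsTree) (hn : ∀ w, ix w < n) {τ : V → V → Fin 3} {f : V → Fin 3}
    (h1 : ∀ w, w ≠ ρ → τ (par T ρ w) w = f w) (h2 : ∀ w, w ≠ ρ → τ w (par T ρ w) = fl (f w))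
    (x : V) (l : Fin 3) :
    cn T τ x l = (chs T ρ ix f n x l).card + if x ≠ ρ ∧ fl (f x) = l then 1 else 0 := by
  unfold cn
  by_cases hx : x ≠ ρ ∧ fl (f x) = l
  · rw [if_pos hx]
    have h3 : {w | T.Adj x w ∧ τ x w = l} =
        ((insert (par T ρ x) (chs T ρ ix f n x l) : Finset V) : Set V) := by
      ext w
      simp only [Set.mem_ofPred_eq, coe_insert, Set.mem_insert_iff, mem_coe, mem_chs]
      constructor
      · rintro ⟨h4, h5⟩
        rcases adj_cases hT ρ h4 with ⟨h6, h7⟩ | ⟨h6, h7⟩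
        · right
          refine ⟨h6, h7, hn w, ?_⟩
          rw [← h1 w h6, h7]
          exact h5
        · exact Or.inl h7.symm
      · rintro (rfl | ⟨h4, h5, -, h6⟩)
        · exact ⟨(par_spec hT hx.1).1, by rw [h2 x hx.1]; exact hx.2⟩
        · have h7 := (par_spec hT h4).1
          rw [h5] at h7
          refine ⟨h7.symm, ?_⟩
          have h8 := h1 w h4
          rw [h5] at h8
          rw [h8]
          exact h6
    rw [h3, Set.ncard_coe_finset, card_insert_of_notMem]
    rw [mem_chs]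
    rintro ⟨h4, h5, -, -⟩
    exact not_both hT hx.1 rfl h4 h5
  · rw [if_neg hx, add_zero]
    have h3 : {w | T.Adj x w ∧ τ x w = l} = ((chs T ρ ix f n x l : Finset V) : Set V) := by
      ext w
      simp only [Set.mem_ofPred_eq, mem_coe, mem_chs]
      constructor
      · rintro ⟨h4, h5⟩
        rcases adj_cases hT ρ h4 with ⟨h6, h7⟩ | ⟨h6, h7⟩
        · refine ⟨h6, h7, hn w, ?_⟩
          rw [← h1 w h6, h7]
          exact h5
        · exfalso
          apply hx
          refine ⟨h6, ?_⟩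
          rw [← h2 x h6, h7]
          exact h5
      · rintro ⟨h4, h5, -, h6⟩
        have h7 := (par_spec hT h4).1
        rw [h5] at h7
        refine ⟨h7.symm, ?_⟩
        have h8 := h1 w h4
        rw [h5] at h8
        rw [h8]
        exact h6
    rw [h3, Set.ncard_coe_finset]

theorem desc_root (hT : T.IsTree) (x : V) : desc T ρ ρ x := by
  have : ∀ (m : ℕ) (x : V), T.dist ρ x = m → desc T ρ ρ x := by
    intro m
    induction m with
    | zero =>
      intro x hd
      by_cases hx : x = ρ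
      · rw [hx]
        exact desc_self ρ
      · have := (par_spec hT hx).2
        omega
    | succ m ih =>
      intro x hd
      by_cases hx : x = ρ
      · rw [hx]
        exact desc_self ρ
      · have h1 := (par_spec hT hx).2
        exact desc_child hT (ih (par T ρ x) (by omega)) hx rfl
  exact this _ x rfl

theorem univ_eq (hT : T.IsTree) (hn : ∀ w, ix w < n) :
    (univ : Finset V) = insert ρ (dsc T ρ ix n ρ) := by
  ext x
  simp only [mem_univ, mem_insert, true_iff]
  by_cases hx : x = ρ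
  · exact Or.inl hx
  · exact Or.inr ((mem_dsc_full hT hn).2 ⟨desc_root hT x, hx⟩)

theorem good_iff_aux (hT : T.IsTree) (hn : ∀ w, ix w < n) {τ : V → V → Fin 3} {f : V → Fin 3}
    (h1 : ∀ w, w ≠ ρ → τ (par T ρ w) w = f w) (h2 : ∀ w, w ≠ ρ → τ w (par T ρ w) = fl (f w)) :
    ((∀ x, Loc T k τ x) ↔ (∀ x ∈ dsc T ρ ix n ρ, Ok T ρ ix n k f x) ∧
      LocN k (chs T ρ ix f n ρ 0).card (chs T ρ ix f n ρ 1).card (chs T ρ ix f n ρ 2).card) ∧
    odds T τ = ∑ x ∈ dsc T ρ ix n ρ, od T ρ ix n f x + (chs T ρ ix f n ρ 0).card % 2 := by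
  have hcn := cn_chs (ix := ix) (n := n) hT hn h1 h2
  have hne : ∀ x, x ≠ ρ → (cn T τ x 0 = (chs T ρ ix f n x 0).card + ind (f x) 0 ∧
      cn T τ x 1 = (chs T ρ ix f n x 1).card + ind (f x) 2 ∧
      cn T τ x 2 = (chs T ρ ix f n x 2).card + ind (f x) 1) := by
    intro x hx
    refine ⟨?_, ?_, ?_⟩
    · rw [hcn]
      unfold ind
      congr 1
      simp only [hx, ne_eq, not_false_eq_true, true_and, fl_zero]
    · rw [hcn]
      unfold ind
      congr 1
      simp only [hx, ne_eq, not_false_eq_true, true_and, fl_one]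
    · rw [hcn]
      unfold ind
      congr 1
      simp only [hx, ne_eq, not_false_eq_true, true_and, fl_two]
  have heq : ∀ l, cn T τ ρ l = (chs T ρ ix f n ρ l).card := by
    intro l
    rw [hcn, if_neg (fun h => h.1 rfl), add_zero]
  constructor
  · constructor
    · intro h
      refine ⟨?_, ?_⟩
      · intro x hx
        have hx' := (dsc_ne hT hx).1
        have h3 := h x
        unfold Loc at h3
        obtain ⟨e0, e1, e2⟩ := hne x hx'
        rw [e0, e1, e2] at h3
        exact h3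
      · have h3 := h ρ
        unfold Loc at h3
        rw [heq, heq, heq] at h3
        exact h3
    · rintro ⟨h3, h4⟩ x
      by_cases hx : x = ρ
      · subst hx
        unfold Loc
        rw [heq, heq, heq]
        exact h4
      · have h5 := h3 x ((mem_dsc_full hT hn).2 ⟨desc_root hT x, hx⟩)
        unfold Loc
        obtain ⟨e0, e1, e2⟩ := hne x hx
        rw [e0, e1, e2]
        exact h5
  · have h3 : odds T τ = ∑ x, cn T τ x 0 % 2 := by
      unfold odds
      have h4 : ∀ x, cn T τ x 0 % 2 = if cn T τ x 0 % 2 = 1 then 1 else 0 := by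
        intro x
        split_ifs <;> omega
      rw [sum_congr rfl fun x _ => h4 x, ← card_filter, ← Set.ncard_coe_finset]
      congr 1
      ext w
      simp
    rw [h3, univ_eq (ρ := ρ) (ix := ix) (n := n) hT hn, sum_insert, heq, add_comm]
    · congr 1
      refine sum_congr rfl fun x hx => ?_
      unfold od
      rw [(hne x (dsc_ne hT hx).1).1]
    · intro h
      exact (dsc_ne hT h).1 rfl

theorem good_iff (hT : T.IsTree) (hn : ∀ w, ix w < n) (t : ℕ) :
    Good T k t ↔ ∃ f a b c q, St T ρ ix n k f n ρ a b c q ∧ LocN k a b c ∧ q + a % 2 = t := by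
  constructor
  · rintro ⟨τ, hL, hloc, rfl⟩
    let f : V → Fin 3 := fun w => τ (par T ρ w) w
    have h1 : ∀ w, w ≠ ρ → τ (par T ρ w) w = f w := fun _ _ => rfl
    have h2 : ∀ w, w ≠ ρ → τ w (par T ρ w) = fl (f w) := by
      intro w hw
      have hadj := (par_spec hT hw).1
      have h3 := hL w (par T ρ w) hadj
      have h4 := hL (par T ρ w) w hadj.symm
      change _ = fl (τ (par T ρ w) w)
      revert h3 h4
      generalize τ w (par T ρ w) = s
      generalize τ (par T ρ w) w = s'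
      revert s s'
      decide
    obtain ⟨h3, h4⟩ := good_iff_aux (k := k) (ix := ix) (n := n) hT hn h1 h2
    have h5 := h3.1 hloc
    exact ⟨f, _, _, _, _, ⟨rfl, rfl, rfl, h5.1, rfl⟩, h5.2, h4.symm⟩
  · rintro ⟨f, a, b, c, q, hst, hloc, rfl⟩
    let τ : V → V → Fin 3 := fun x w => if w ≠ ρ ∧ par T ρ w = x then f w else fl (f x)
    have h1 : ∀ w, w ≠ ρ → τ (par T ρ w) w = f w := fun w hw => if_pos ⟨hw, rfl⟩
    have h2 : ∀ w, w ≠ ρ → τ w (par T ρ w) = fl (f w) := by
      intro w hw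
      refine if_neg ?_
      rintro ⟨h3, h4⟩
      exact not_both hT hw rfl h3 h4
    obtain ⟨h3, h4⟩ := good_iff_aux (k := k) (ix := ix) (n := n) hT hn h1 h2
    refine ⟨τ, ?_, ?_, ?_⟩
    · have key : ∀ w, w ≠ ρ → ((τ (par T ρ w) w = 0 ↔ τ w (par T ρ w) = 0) ∧
          (τ (par T ρ w) w = 1 ↔ τ w (par T ρ w) = 2)) ∧
          ((τ w (par T ρ w) = 0 ↔ τ (par T ρ w) w = 0) ∧
          (τ w (par T ρ w) = 1 ↔ τ (par T ρ w) w = 2)) := by
        intro w hw
        rw [h1 w hw, h2 w hw]
        generalize f w = s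
        revert s
        decide
      intro x w hxw
      rcases adj_cases hT ρ hxw with ⟨h5, rfl⟩ | ⟨h5, rfl⟩
      · exact (key w h5).1
      · exact (key x h5).2
    · apply h3.2
      refine ⟨hst.ok, ?_⟩
      rw [hst.ha, hst.hb, hst.hc]
      exact hloc
    · rw [h4, hst.hq, hst.ha]

end Q227.UB
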