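import Pool.Agent.Q227.UB.Alg
import Pool.Agent.Q227.UB.Dp

/-!
# Correctness of the dynamic program
-/

set_option autoImplicit false

namespace Q227.UB

open Finset

variable (I : Inp)

/-- The index of a vertex. -/
def idx (w : {v // v ∈ I.1}) : ℕ := I.1.idxOf w.1

variable {I}

theorem idx_inj : Function.Injective (idx I) := by
  intro a b h
  exact Subtype.ext ((List.idxOf_inj a.2).1 h)

theorem idx_lt (w : {v // v ∈ I.1}) : idx I w < I.1.length := List.idxOf_lt_length_of_mem w.2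

theorem nth_idx (w : {v // v ∈ I.1}) : nth I (idx I w) = w.1 := by
  unfold nth idx
  rw [List.getD_eq_getElem _ _ (List.idxOf_lt_length_of_mem w.2)]
  exact List.getElem_idxOf _

theorem exists_idx (hnd : I.1.Nodup) {i : ℕ} (hi : i < I.1.length) :
    ∃ w : {v // v ∈ I.1}, idx I w = i ∧ w.1 = nth I i := by
  refine ⟨⟨I.1[i], List.getElem_mem hi⟩, ?_, ?_⟩
  · exact hnd.idxOf_getElem i hi
  · unfold nth
    rw [List.getD_eq_getElem _ _ hi]

theorem adjB_iff (v w : {v // v ∈ I.1}) : adjB I v.1 w.1 = true ↔ (graphOf I).Adj v w := by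
  unfold adjB graphOf
  simp only [Bool.and_eq_true, Bool.not_eq_true', decide_eq_false_iff_not, List.any_eq_true,
    Bool.or_eq_true, decide_eq_true_eq, ne_eq]
  constructor
  · rintro ⟨h1, p, hp, rfl | rfl⟩
    · exact ⟨fun h => h1 (congrArg Subtype.val h), Or.inl hp⟩
    · exact ⟨fun h => h1 (congrArg Subtype.val h), Or.inr hp⟩
  · rintro ⟨h1, h2 | h2⟩
    · exact ⟨fun h => h1 (Subtype.ext h), _, h2, Or.inl rfl⟩
    · exact ⟨fun h => h1 (Subtype.ext h), _, h2, Or.inr rfl⟩

/-- `u` is the parent of `v`, or both are the root. -/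
def Vp (T : SimpleGraph {v // v ∈ I.1}) (ρ v u : {v // v ∈ I.1}) : Prop :=
  (v = ρ ∧ u = ρ) ∨ (v ≠ ρ ∧ par T ρ v = u)

theorem childB_iff (hT : (graphOf I).IsTree) {ρ v u : {v // v ∈ I.1}}
    (h : Vp (graphOf I) ρ v u) (w : {v // v ∈ I.1}) :
    childB I v.1 u.1 w.1 = true ↔ (w ≠ ρ ∧ par (graphOf I) ρ w = v) := by
  unfold childB
  rw [Bool.and_eq_true, adjB_iff]
  simp only [Bool.not_eq_true', decide_eq_false_iff_not]
  constructor
  · rintro ⟨h1, h2⟩
    rcases adj_cases hT ρ h1 with h3 | ⟨h3, h4⟩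
    · exact h3
    · rcases h with ⟨h5, -⟩ | ⟨-, h5⟩
      · exact absurd h5 h3
      · exfalso
        apply h2
        rw [← h4, h5]
  · rintro ⟨h1, h2⟩
    have h3 := (par_spec hT h1).1
    rw [h2] at h3
    refine ⟨h3.symm, ?_⟩
    intro h4
    have h5 : w = u := Subtype.ext h4
    rcases h with ⟨h6, h7⟩ | ⟨h6, h7⟩
    · exact h1 (h5.trans h7)
    · exact not_both hT h1 h2 h6 (h7.trans h5.symm)

theorem locB_iff {k a b c : ℕ} : locB k a b c = true ↔ LocN k a b c := by
  unfold locB LocN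
  simp only [Bool.and_eq_true, decide_eq_true_eq]

theorem mem_rgN {m : ℕ} : m ∈ rgN I ↔ m ≤ I.1.length := by
  unfold rgN
  rw [List.mem_range]
  omega

theorem mem_facts {v u i a b c q : ℕ} : ((v, u, i, a, b, c, q) : Fact) ∈ facts I ↔
    v ∈ I.1 ∧ u ∈ I.1 ∧ i ≤ I.1.length ∧ a ≤ I.1.length ∧ b ≤ I.1.length ∧ c ≤ I.1.length ∧
      q ≤ I.1.length := by
  unfold facts
  rw [mem_lprod, mem_lprod, mem_lprod, mem_lprod, mem_lprod, mem_lprod, mem_rgN, mem_rgN, mem_rgN,
    mem_rgN, mem_rgN]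

theorem skipB_iff {v u i a b c q v' u' i' a' b' c' q' : ℕ} :
    skipB I (v, u, i, a, b, c, q) (v', u', i', a', b', c', q') = true ↔
      v = v' ∧ u = u' ∧ i = i' + 1 ∧ (a = a' ∧ b = b' ∧ c = c' ∧ q = q') ∧
        childB I v u (nth I i') = false := by
  unfold skipB
  simp only [Bool.and_eq_true, decide_eq_true_eq, Bool.not_eq_true', Prod.mk.injEq]

theorem takeB_iff {k : ℕ} {e : ℕ × ℕ × ℕ} {v u i a b c q v' u' i' a' b' c' q' : ℕ}
    {v2 u2 i2 a2 b2 c2 q2 : ℕ} :
    takeB I k e (v, u, i, a, b, c, q) (v', u', i', a', b', c', q') (v2, u2, i2, a2, b2, c2, q2) =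
      true ↔
      v = v' ∧ u = u' ∧ i = i' + 1 ∧ childB I v u (nth I i') = true ∧ v2 = nth I i' ∧ u2 = v ∧
        i2 = I.1.length ∧ LocN k (a2 + e.1) (b2 + e.2.2) (c2 + e.2.1) ∧
        (a = a' + e.1 ∧ b = b' + e.2.1 ∧ c = c' + e.2.2 ∧ q = q' + q2 + (a2 + e.1) % 2) := by
  unfold takeB
  simp only [Bool.and_eq_true, decide_eq_true_eq, Prod.mk.injEq, locB_iff]

/-- The triple of a label. -/
def tri (l : Fin 3) : ℕ × ℕ × ℕ := (ind l 0, ind l 1, ind l 2)

theorem ruleB_iff {k : ℕ} {f g h : Fact} : ruleB I k f g h = true ↔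
    skipB I f g = true ∨ ∃ l, takeB I k (tri l) f g h = true := by
  unfold ruleB
  simp only [Bool.or_eq_true]
  refine or_congr Iff.rfl ?_
  constructor
  · rintro (h1 | h1 | h1)
    · exact ⟨0, h1⟩
    · exact ⟨1, h1⟩
    · exact ⟨2, h1⟩
  · rintro ⟨l, hl⟩
    fin_cases l
    · exact Or.inl hl
    · exact Or.inr (Or.inl hl)
    · exact Or.inr (Or.inr hl)

section

variable [Fintype {v // v ∈ I.1}]

theorem sound (hnd : I.1.Nodup) (hT : (graphOf I).IsTree) (ρ : {v // v ∈ I.1}) (k : ℕ)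
    {F : Fact} (hF : Der (facts I) baseB (ruleB I k) F) :
    ∀ (hv : F.1 ∈ I.1) (hu : F.2.1 ∈ I.1), Vp (graphOf I) ρ ⟨F.1, hv⟩ ⟨F.2.1, hu⟩ →
      ∃ g, St (graphOf I) ρ (idx I) I.1.length k g F.2.2.1 ⟨F.1, hv⟩ F.2.2.2.1 F.2.2.2.2.1
        F.2.2.2.2.2.1 F.2.2.2.2.2.2 := by
  induction hF with
  | base f hf hb =>
    obtain ⟨v, u, i, a, b, c, q⟩ := f
    intro hv hu _
    unfold baseB at hb
    simp only [decide_eq_true_eq, Prod.mk.injEq] at hb
    obtain ⟨rfl, rfl, rfl, rfl, rfl⟩ := hb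
    exact ⟨fun _ => 0, St.base hT _ _⟩
  | rule f g h hf _ _ hR ihg ihh =>
    obtain ⟨v, u, i, a, b, c, q⟩ := f
    obtain ⟨v', u', i', a', b', c', q'⟩ := g
    obtain ⟨v2, u2, i2, a2, b2, c2, q2⟩ := h
    intro hv hu hvp
    rw [ruleB_iff] at hR
    have hfm := mem_facts.1 hf
    rcases hR with hR | ⟨l, hR⟩
    · rw [skipB_iff] at hR
      obtain ⟨rfl, rfl, rfl, ⟨rfl, rfl, rfl, rfl⟩, hch⟩ := hR
      obtain ⟨g, hg⟩ := ihg hv hu hvp
      refine ⟨g, hg.skip ?_⟩
      rintro w rfl hw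
      have h1 := (childB_iff hT hvp w).2 hw
      change childB I v u (nth I (idx I w)) = false at hch
      rw [nth_idx] at hch
      change childB I v u w.1 = true at h1
      rw [h1] at hch
      exact absurd hch (by simp)
    · rw [takeB_iff] at hR
      obtain ⟨rfl, rfl, rfl, hch, rfl, hu2, rfl, hloc, rfl, rfl, rfl, rfl⟩ := hR
      subst u2
      obtain ⟨w, hw, hw'⟩ := exists_idx hnd (show i' < I.1.length by have := hfm.2.2.1; omega)
      rw [← hw'] at hch
      have hchild := (childB_iff hT hvp w).1 hch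
      obtain ⟨f1, hf1⟩ := ihg hv hu hvp
      have hvp2 : Vp (graphOf I) ρ ⟨nth I i', by rw [← hw']; exact w.2⟩ ⟨v, hv⟩ := by
        have : (⟨nth I i', by rw [← hw']; exact w.2⟩ : {v // v ∈ I.1}) = w :=
          Subtype.ext hw'.symm
        rw [this]
        exact Or.inr hchild
      obtain ⟨f2, hf2⟩ := ihh (by rw [← hw']; exact w.2) hv hvp2
      have e1 : (⟨nth I i', by rw [← hw']; exact w.2⟩ : {v // v ∈ I.1}) = w :=
        Subtype.ext hw'.symm
      have hf2' : St (graphOf I) ρ (idx I) I.1.length k f2 I.1.length w a2 b2 c2 q2 := by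
        rw [← e1]
        exact hf2
      subst hw
      exact St.glue hT idx_inj idx_lt hchild.1 hchild.2 hf1 hf2' l hloc

theorem card_le : Fintype.card {v // v ∈ I.1} ≤ I.1.length := by
  have h := Finset.card_le_card_of_injOn (s := (univ : Finset {v // v ∈ I.1}))
    (t := Finset.range I.1.length) (idx I) (fun w _ => by
      rw [mem_coe, mem_range]; exact idx_lt w) (fun a _ b _ h => idx_inj h)
  rw [card_univ, card_range] at h
  exact h

theorem od_le {V : Type*} [Fintype V] {T : SimpleGraph V} {ρ : V} {ix : V → ℕ} {n : ℕ}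
    (f : V → Fin 3) (x : V) : od T ρ ix n f x ≤ 1 := by
  unfold od
  omega

theorem complete (hnd : I.1.Nodup) (hT : (graphOf I).IsTree) (ρ : {v // v ∈ I.1}) (k : ℕ)
    (f : {v // v ∈ I.1} → Fin 3)
    (hok : ∀ x ∈ dsc (graphOf I) ρ (idx I) I.1.length ρ, Ok (graphOf I) ρ (idx I) I.1.length k f x) :
    ∀ (m : ℕ) (v u : {v // v ∈ I.1}),
      Fintype.card {v // v ∈ I.1} ≤ (graphOf I).dist ρ v + m → Vp (graphOf I) ρ v u →
      ∀ i ≤ I.1.length, Der (facts I) baseB (ruleB I k)
        (v.1, u.1, i, (chs (graphOf I) ρ (idx I) f i v 0).card,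
          (chs (graphOf I) ρ (idx I) f i v 1).card, (chs (graphOf I) ρ (idx I) f i v 2).card,
          ∑ x ∈ dsc (graphOf I) ρ (idx I) i v, od (graphOf I) ρ (idx I) I.1.length f x) := by
  classical
  have hmem : ∀ (v u : {v // v ∈ I.1}) (i : ℕ), i ≤ I.1.length →
      ((v.1, u.1, i, (chs (graphOf I) ρ (idx I) f i v 0).card,
          (chs (graphOf I) ρ (idx I) f i v 1).card, (chs (graphOf I) ρ (idx I) f i v 2).card,
          ∑ x ∈ dsc (graphOf I) ρ (idx I) i v, od (graphOf I) ρ (idx I) I.1.length f x) : Fact) ∈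
        facts I := by
    intro v u i hi
    rw [mem_facts]
    have h1 : ∀ s : Finset {v // v ∈ I.1}, s.card ≤ I.1.length :=
      fun s => (card_le_univ s).trans card_le
    refine ⟨v.2, u.2, hi, h1 _, h1 _, h1 _, ?_⟩
    refine le_trans (sum_le_card_nsmul _ _ 1 fun x _ => od_le f x) ?_
    rw [smul_eq_mul, mul_one]
    exact h1 _
  intro m
  induction m with
  | zero =>
    intro v u hd _
    exfalso
    obtain ⟨p, hp, hlen⟩ := hT.connected.exists_path_of_dist ρ v
    have := hp.length_lt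
    omega
  | succ m ih =>
    intro v u hd hvp i
    induction i with
    | zero =>
      intro _
      refine Der.base _ (hmem v u 0 (Nat.zero_le _)) ?_
      have hb := St.base (k := k) (n := I.1.length) (ix := idx I) (ρ := ρ) hT f v
      rw [show ((chs (graphOf I) ρ (idx I) f 0 v 0).card) = 0 from hb.ha,
        show ((chs (graphOf I) ρ (idx I) f 0 v 1).card) = 0 from hb.hb,
        show ((chs (graphOf I) ρ (idx I) f 0 v 2).card) = 0 from hb.hc,
        show (∑ x ∈ dsc (graphOf I) ρ (idx I) 0 v, od (graphOf I) ρ (idx I) I.1.length f x) = 0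
          from hb.hq]
      rfl
    | succ i ihi =>
      intro hi
      have h1 := ihi (by omega)
      obtain ⟨w, hw, hw'⟩ := exists_idx hnd (show i < I.1.length by omega)
      subst hw
      by_cases hch : w ≠ ρ ∧ par (graphOf I) ρ w = v
      · have hcb := (childB_iff hT hvp w).2 hch
        have hdw := child_dist hT hch.1 hch.2
        have h2 := ih w v (by omega) (Or.inr hch) I.1.length le_rfl
        have hokw := hok w ((mem_dsc_full hT idx_lt).2 ⟨desc_root hT w, hch.1⟩)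
        refine Der.rule _ _ _ (hmem v u _ hi) h1 h2 ?_
        rw [ruleB_iff]
        refine Or.inr ⟨f w, ?_⟩
        rw [takeB_iff]
        refine ⟨rfl, rfl, rfl, ?_, ?_, rfl, rfl, hokw, ?_, ?_, ?_, ?_⟩
        · rw [← hw']
          exact hcb
        · exact hw'
        · rw [card_chs_take idx_inj hch.1 hch.2]
          rfl
        · rw [card_chs_take idx_inj hch.1 hch.2]
          rfl
        · rw [card_chs_take idx_inj hch.1 hch.2]
          rfl
        · rw [sum_take hT idx_inj idx_lt hch.1 hch.2]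
          rfl
      · have hskip : ∀ w', idx I w' = idx I w → ¬ (w' ≠ ρ ∧ par (graphOf I) ρ w' = v) := by
          intro w' h3
          rw [idx_inj h3]
          exact hch
        refine Der.rule _ _ _ (hmem v u _ hi) h1 h1 ?_
        rw [ruleB_iff]
        refine Or.inl ?_
        rw [skipB_iff, chs_skip hskip, chs_skip hskip, chs_skip hskip, dsc_skip hskip]
        refine ⟨rfl, rfl, rfl, ⟨rfl, rfl, rfl, rfl⟩, ?_⟩
        rw [← hw']
        by_contra hne
        rw [Bool.not_eq_false] at hne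
        exact hch ((childB_iff hT hvp w).1 hne)

end

theorem goodB_iff (hnd : I.1.Nodup) (hT : (graphOf I).IsTree) (k t : ℕ) :
    goodB I k t = true ↔ Good (graphOf I) k t := by
  classical
  have hfin : Fintype {v // v ∈ I.1} := Fintype.ofFinite _
  have hlen : 0 < I.1.length := by
    obtain ⟨x⟩ := hT.connected.nonempty
    exact List.length_pos_of_mem x.2
  obtain ⟨ρ, hρ, hρ'⟩ := exists_idx hnd hlen
  rw [good_iff (k := k) (ρ := ρ) (ix := idx I) (n := I.1.length) hT idx_lt t]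
  unfold goodB
  simp only [List.any_eq_true, Bool.and_eq_true, decide_eq_true_eq, mem_clo, locB_iff]
  constructor
  · rintro ⟨⟨v, u, i, a, b, c, q⟩, hF, hv, hu, hi, hloc, hq⟩
    change v = _ at hv
    change u = _ at hu
    change i = _ at hi
    subst hv hu hi
    have hmem : nth I 0 ∈ I.1 := by rw [← hρ']; exact ρ.2
    have e : (⟨nth I 0, hmem⟩ : {v // v ∈ I.1}) = ρ := Subtype.ext hρ'.symm
    obtain ⟨g, hg⟩ := sound hnd hT ρ k hF hmem hmem (Or.inl ⟨e, e⟩)
    refine ⟨g, a, b, c, q, ?_, hloc, hq⟩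
    rw [← e]
    rw [← e] at hg
    exact hg
  · rintro ⟨f, a, b, c, q, hst, hloc, hq⟩
    have h1 := complete hnd hT ρ k f hst.ok (Fintype.card {v // v ∈ I.1}) ρ ρ (by omega)
      (Or.inl ⟨rfl, rfl⟩) I.1.length le_rfl
    refine ⟨_, h1, hρ', hρ', rfl, ?_, ?_⟩
    · change LocN k (chs (graphOf I) ρ (idx I) f I.1.length ρ 0).card
        (chs (graphOf I) ρ (idx I) f I.1.length ρ 1).card
        (chs (graphOf I) ρ (idx I) f I.1.length ρ 2).card
      rw [hst.ha, hst.hb, hst.hc]
      exact hloc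
    · change ∑ x ∈ dsc (graphOf I) ρ (idx I) I.1.length ρ, od (graphOf I) ρ (idx I) I.1.length f x +
        (chs (graphOf I) ρ (idx I) f I.1.length ρ 0).card % 2 = t
      rw [hst.hq, hst.ha]
      exact hq

end Q227.UB
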