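import Pool.Agent.Q227.UB.Cor
import Pool.Agent.Q227.UB.CombA
import Pool.Agent.Q227.UB.CombC

/-!
# Main theorem
-/

set_option autoImplicit false

namespace Q227.UB

open Pool.Agent.NPC

theorem least_filter {n k : ℕ} {p : ℕ → Bool} (hk : k < n) (hp : p k = true) :
    IsLeast {j | p j = true} (((List.range n).filter p).getD 0 0) := by
  have hex : ∃ j, p j = true := ⟨k, hp⟩
  have h1 : (List.range n).find? p = some (Nat.find hex) := by
    rw [List.find?_range_eq_some]
    refine ⟨Nat.find_spec hex, ?_, ?_⟩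
    · rw [List.mem_range]
      exact lt_of_le_of_lt (Nat.find_min' hex hp) hk
    · intro j hj
      have := Nat.find_min hex hj
      simpa using this
  have h2 : ((List.range n).filter p).getD 0 0 = Nat.find hex := by
    rw [List.getD_eq_getElem?_getD, ← List.head?_eq_getElem?, List.head?_filter, h1]
    rfl
  rw [h2]
  exact ⟨Nat.find_spec hex, fun j hj => Nat.find_min' hex hj⟩

theorem good_all {V : Type} [Finite V] {T : SimpleGraph V} {n : ℕ} (hn : 1 ≤ n)
    (hc : Nat.card V ≤ n) : ∃ q, Good T n q := by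
  refine ⟨_, fun _ _ => 0, ?_, ?_, rfl⟩
  · intro x w _
    change ((0 : Fin 3) = 0 ↔ (0 : Fin 3) = 0) ∧ ((0 : Fin 3) = 1 ↔ (0 : Fin 3) = 2)
    decide
  · intro x
    have h0 : cn T (fun _ _ => (0 : Fin 3)) x 0 ≤ n := (Set.ncard_le_card _).trans hc
    have h1 : cn T (fun _ _ => (0 : Fin 3)) x 1 = 0 := by
      unfold cn
      rw [Set.ncard_eq_zero (Set.toFinite _)]
      ext w
      simp
    have h2 : cn T (fun _ _ => (0 : Fin 3)) x 2 = 0 := by
      unfold cn
      rw [Set.ncard_eq_zero (Set.toFinite _)]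
      ext w
      simp
    unfold Loc
    rw [h1, h2]
    omega

theorem good_le {V : Type} [Finite V] {T : SimpleGraph V} {n k q : ℕ}
    (hc : Nat.card V ≤ n) (h : Good T k q) : q ≤ n := by
  obtain ⟨τ, -, -, rfl⟩ := h
  exact (Set.ncard_le_card _).trans hc

theorem decomposes_iff {V : Type} [Finite V] {T : SimpleGraph V} (hT : T.IsTree) {k : ℕ} :
    (∃ ℓ, Decomposes T k ℓ) ↔ ∃ q, Good T k q := by
  constructor
  · rintro ⟨ℓ, h⟩
    obtain ⟨q, -, hq⟩ := decomp_good h
    exact ⟨q, hq⟩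
  · rintro ⟨q, h⟩
    obtain ⟨ℓ, -, hℓ⟩ := good_decomp hT h
    exact ⟨ℓ, hℓ⟩

theorem solve_spec {I : Inp} (hnd : I.1.Nodup) (hT : (graphOf I).IsTree) :
    IsLeast {k | 1 ≤ k ∧ ∃ ℓ, Decomposes (graphOf I) k ℓ} (solve I).1 ∧
      IsLeast {ℓ | Decomposes (graphOf I) (solve I).1 ℓ} (solve I).2 := by
  classical
  have hfin : Fintype {v // v ∈ I.1} := Fintype.ofFinite _
  have hc : Nat.card {v // v ∈ I.1} ≤ I.1.length := by
    rw [Nat.card_eq_fintype_card]
    exact card_le
  have hlen : 1 ≤ I.1.length := by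
    obtain ⟨x⟩ := hT.connected.nonempty
    exact List.length_pos_of_mem x.2
  have hP : ∀ k, (decide (1 ≤ k) && (rgN I).any fun t => goodB I k t) = true ↔
      (1 ≤ k ∧ ∃ ℓ, Decomposes (graphOf I) k ℓ) := by
    intro k
    rw [Bool.and_eq_true, decide_eq_true_eq, List.any_eq_true, decomposes_iff hT]
    refine and_congr Iff.rfl ?_
    constructor
    · rintro ⟨t, -, ht⟩
      exact ⟨t, (goodB_iff hnd hT k t).1 ht⟩
    · rintro ⟨t, ht⟩
      exact ⟨t, mem_rgN.2 (good_le hc ht), (goodB_iff hnd hT k t).2 ht⟩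
  have h1 : IsLeast {k | 1 ≤ k ∧ ∃ ℓ, Decomposes (graphOf I) k ℓ} (ubB I) := by
    have h2 := least_filter (n := I.1.length + 1) (k := I.1.length)
      (p := fun k => decide (1 ≤ k) && (rgN I).any fun t => goodB I k t) (by omega)
      ((hP _).2 ⟨hlen, (decomposes_iff hT).2 (good_all hlen hc)⟩)
    have h3 : {k | (decide (1 ≤ k) && (rgN I).any fun t => goodB I k t) = true} =
        {k | 1 ≤ k ∧ ∃ ℓ, Decomposes (graphOf I) k ℓ} := by
      ext k
      exact hP k
    rw [h3] at h2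
    exact h2
  refine ⟨h1, ?_⟩
  obtain ⟨q, hq⟩ := (decomposes_iff hT).1 h1.1.2
  have h2 := least_filter (n := I.1.length + 1) (k := q) (p := fun t => goodB I (ubB I) t)
    (by have := good_le hc hq; omega) ((goodB_iff hnd hT _ _).2 hq)
  change IsLeast {ℓ | Decomposes (graphOf I) (ubB I) ℓ}
    (((List.range (I.1.length + 1)).filter fun t => goodB I (ubB I) t).getD 0 0 / 2)
  obtain ⟨h3, h4⟩ := h2
  have h5 := (goodB_iff hnd hT _ _).1 h3
  obtain ⟨ℓ, h6, h7⟩ := good_decomp hT h5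
  constructor
  · rw [← h6, Nat.mul_div_cancel_left _ (by norm_num)]
    exact h7
  · intro ℓ' hℓ'
    obtain ⟨q', hq', hgood⟩ := decomp_good (show Decomposes (graphOf I) (ubB I) ℓ' from hℓ')
    have h8 := h4 (show q' ∈ {j | goodB I (ubB I) j = true} from (goodB_iff hnd hT _ _).2 hgood)
    omega

theorem main : ∃ F : List Bool → List Bool, PolyTime F ∧
    ∀ I : List ℕ × List (ℕ × ℕ), I.1.Nodup → (graphOf I).IsTree →
      ∃ k m : ℕ, F (bits I) = bits (k, m) ∧
        IsLeast {k | 1 ≤ k ∧ ∃ ℓ, Decomposes (graphOf I) k ℓ} k ∧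
        IsLeast {ℓ | Decomposes (graphOf I) k ℓ} m := by
  have hp : Poly (fun x : List Bool => solve ((unbits Inp x).getD ([], []))) := by
    have h1 : Poly (fun x : List Bool => (unbits Inp x).getD ([], [])) :=
      (Poly.optCases (g := fun _ => (([], []) : Inp)) (h := fun _ b => b)
        (poly_unbits (α := Inp)) (Pool.Agent.NPC.Poly.const _) (Poly.snd Poly.id)).congr
        fun x => by cases unbits Inp x <;> rfl
    exact poly_solve h1
  refine ⟨_, polyTime_bits hp, ?_⟩
  intro I hnd hT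
  refine ⟨(solve I).1, (solve I).2, ?_, solve_spec hnd hT⟩
  change bits (solve ((unbits Inp (bits I)).getD ([], []))) = _
  rw [unbits_bits]
  rfl

end Q227.UB
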